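import Pool.Agent.MP_66cee2_co.B67.Spec
import Pool.Agent.MP_66cee2_co.B.Hk
import Pool.Agent.MP_66cee2_co.B.Psi

/-
Explicit base with a cut ball kernel: the local rank bound averaged over balls.
-/

namespace Pool.Agent.MP_66cee2_co.B67

open MeasureTheory Set Filter Metric Topology Pool.Agent.MP_66cee2_co.X
  Pool.Agent.MP_66cee2_co.B

theorem sConv3 : SLoc3 → SMass → SConv3 := by
  intro hLoc hM t γ ht hγ
  obtain ⟨c, hc, hL⟩ := hLoc t γ (1 / 32) ht hγ (by norm_num)
  refine ⟨c / 32, by positivity, ?_⟩
  filter_upwards [hL] with d hL n Y β φ hP hφ hb hD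
  obtain ⟨p1, p2, p3, -, -⟩ := sPsi
  have hk : ∀ s, 0 ≤ s → |psi s| ≤ 1 := fun s hs => by
    rw [abs_of_nonneg (p2 s)]; exact (p3 s hs).1
  obtain ⟨-, -, -, -, hu⟩ := sHk d n Y β psi hP p1 hk
  have hfin : volume Y ≠ ⊤ := hP.bdd.measure_lt_top.ne
  have : IsFiniteMeasure (volume.restrict Y) := isFiniteMeasure_restrict.2 hfin
  set K : E d × E d → ℝ := fun q => psi (‖β q.1 - β q.2‖ ^ 2) with hK
  have mK : Measurable K := p1.measurable.comp
    (((hP.meas.comp measurable_fst).sub (hP.meas.comp measurable_snd)).norm.pow_const 2)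
  have bK : ∀ q, 0 ≤ K q ∧ K q ≤ 1 := fun q => ⟨p2 _, (p3 _ (sq_nonneg _)).1⟩
  set k : E d × E d → ℝ := fun q => max (2 * t ^ 2 + γ - ‖q.2 - q.1‖ ^ 2) 0 with hkk
  have ck : Continuous k := by simp only [hkk]; fun_prop
  have bk : ∀ q, 0 ≤ k q ∧ k q ≤ 2 * t ^ 2 + γ := fun q =>
    ⟨le_max_right _ _, max_le (by linarith [sq_nonneg ‖q.2 - q.1‖]) (by positivity)⟩
  set L : E d × E d → ℝ := fun q => k q * K q with hLL
  have mL : Measurable L := ck.measurable.mul mK
  have bL : ∀ q, 0 ≤ L q ∧ L q ≤ 2 * t ^ 2 + γ := fun q =>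
    ⟨mul_nonneg (bk q).1 (bK q).1, (mul_le_of_le_one_right (bk q).1 (bK q).2).trans (bk q).2⟩
  set μ : Measure (E d × E d) := (volume.restrict Y).prod (volume.restrict Y) with hμ
  set F : E d × E d → E d → ℝ :=
    fun q z => (ball q.1 t ∩ ball q.2 t).indicator (fun _ => L q) z with hF
  have mF : Measurable (Function.uncurry F) := by
    have c1 : Continuous fun p : (E d × E d) × E d => dist p.2 p.1.1 := by fun_prop
    have c2 : Continuous fun p : (E d × E d) × E d => dist p.2 p.1.2 := by fun_prop
    have ho : IsOpen {p : (E d × E d) × E d | dist p.2 p.1.1 < t ∧ dist p.2 p.1.2 < t} :=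
      (isOpen_lt c1 continuous_const).inter (isOpen_lt c2 continuous_const)
    have e : Function.uncurry F =
        {p : (E d × E d) × E d | dist p.2 p.1.1 < t ∧ dist p.2 p.1.2 < t}.indicator
          fun p => L p.1 := by
      funext p
      simp only [hF, Function.uncurry, indicator, mem_inter_iff, mem_ball, mem_ofPred_eq]
    rw [e]
    exact (mL.comp measurable_fst).indicator ho.measurableSet
  have hmb : ∀ q : E d × E d, MeasurableSet (ball q.1 t ∩ ball q.2 t) := fun q =>
    measurableSet_ball.inter measurableSet_ball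
  have hlt : ∀ q : E d × E d, volume (ball q.1 t ∩ ball q.2 t) ≠ ⊤ := fun q =>
    ((measure_mono inter_subset_left).trans_lt measure_ball_lt_top).ne
  have hFz : ∀ q, ∫ z, F q z ≤ φ (q.2 - q.1) * K q := fun q => by
    simp only [hF]
    rw [integral_indicator (hmb q), setIntegral_const, smul_eq_mul]
    simp only [hLL]
    rw [← mul_assoc]
    exact mul_le_mul_of_nonneg_right (hb _ _) (bK q).1
  have F0 : ∀ q z, 0 ≤ F q z := fun q z => indicator_nonneg (fun _ _ => (bL q).1) z
  have iG : Integrable (fun q : E d × E d => φ (q.2 - q.1) * K q) μ := by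
    obtain ⟨R, hR⟩ := hP.bdd.exists_norm_le
    obtain ⟨C, hC⟩ := (isCompact_closedBall (0 : E d) (R + R)).exists_bound_of_continuousOn
      hφ.continuousOn
    have c1 : Continuous fun q : E d × E d => φ (q.2 - q.1) := by fun_prop
    refine (integrable_const C).mono' (c1.measurable.mul mK).aestronglyMeasurable ?_
    rw [hμ, Measure.prod_restrict]
    filter_upwards [ae_restrict_mem (hP.ms.prod hP.ms)] with p hp
    rw [norm_mul, Real.norm_of_nonneg (bK p).1]
    refine (mul_le_of_le_one_right (norm_nonneg _) (bK p).2).trans (hC _ ?_)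
    rw [mem_closedBall_zero_iff]
    exact (norm_sub_le _ _).trans (add_le_add (hR _ hp.2) (hR _ hp.1))
  have iF : Integrable (Function.uncurry F) (μ.prod volume) := by
    refine (integrable_prod_iff mF.aestronglyMeasurable).2 ⟨ae_of_all _ fun q => ?_, ?_⟩
    · have h : IntegrableOn (fun _ => L q) (ball q.1 t ∩ ball q.2 t) :=
        integrableOn_const (hlt q)
      exact (integrable_indicator_iff (hmb q)).2 h
    · refine iG.mono' mF.norm.stronglyMeasurable.integral_prod_right'.aestronglyMeasurable
        (ae_of_all _ fun q => ?_)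
      simp only [Function.uncurry_apply_pair, Real.norm_of_nonneg (F0 _ _)]
      rw [Real.norm_of_nonneg (integral_nonneg (F0 q))]
      exact hFz q
  have sw : ∫ q, ∫ z, F q z ∂volume ∂μ = ∫ z, ∫ q, F q z ∂μ := integral_integral_swap iF
  have iz : Integrable fun z => ∫ q, F q z ∂μ := iF.integral_prod_right
  have e1 : ∫ z, ∫ q, F q z ∂μ ≤ ∫ w, φ w * Hk Y β psi w := by
    rw [hu _ hφ, ← sw]
    exact (integral_mono iF.integral_prod_left iG hFz).trans_eq (integral_prod _ iG)
  set V : ℝ := volume.real (ball (0 : E d) t) with hV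
  have V0 : 0 ≤ V := measureReal_nonneg
  have e2 : ∀ z, c * (volume.real (Y ∩ ball z t) ^ 2 - V / 32 * volume.real (Y ∩ ball z t)) ≤
      (n + 2) * ∫ q, F q z ∂μ := fun z => by
    have m0 : 0 ≤ volume.real (Y ∩ ball z t) := measureReal_nonneg
    have hz : volume.real (ball z t) = V := by
      simp only [hV, measureReal_def]
      rw [Measure.addHaar_ball_center]
    rcases le_total (V / 32) (volume.real (Y ∩ ball z t)) with hm | hm
    · have h := hL n (Y ∩ ball z t) β z (hP.ms.inter measurableSet_ball) hP.meas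
        inter_subset_right (by rw [hz]; linarith)
      have i1 : Integrable L (((volume.restrict Y).restrict (ball z t)).prod
          ((volume.restrict Y).restrict (ball z t))) :=
        Integrable.of_bound mL.aestronglyMeasurable (2 * t ^ 2 + γ) (ae_of_all _ fun q => by
          rw [Real.norm_of_nonneg (bL q).1]; exact (bL q).2)
      have h1 := integral_prod _ i1
      rw [Measure.prod_restrict,
        ← integral_indicator (measurableSet_ball.prod measurableSet_ball)] at h1
      have h2 : ∫ q, F q z ∂μ = ∫ q, (ball z t ×ˢ ball z t).indicator L q ∂μ := by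
        refine integral_congr_ae (ae_of_all _ fun q => ?_)
        simp only [hF, indicator, mem_inter_iff, mem_ball, mem_prod, dist_comm z]
      have h3 : (volume.restrict Y).restrict (ball z t) = volume.restrict (Y ∩ ball z t) := by
        rw [Measure.restrict_restrict measurableSet_ball, inter_comm]
      rw [h3] at h1
      rw [h2, h1]
      refine le_trans ?_ h
      have : 0 ≤ V / 32 * volume.real (Y ∩ ball z t) := by positivity
      exact mul_le_mul_of_nonneg_left (by linarith) hc.le
    · have h0 : (0 : ℝ) ≤ (n + 2) * ∫ q, F q z ∂μ :=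
        mul_nonneg (by positivity) (integral_nonneg fun q => F0 q z)
      refine le_trans ?_ h0
      exact mul_nonpos_of_nonneg_of_nonpos hc.le (by nlinarith)
  obtain ⟨m1, m2, m3⟩ := hM d Y t hP.ms hP.bdd
  refine le_trans ?_ (mul_le_mul_of_nonneg_left e1 (by positivity))
  have e3 := integral_mono ((m2.sub (m1.const_mul (V / 32))).const_mul c)
    (iz.const_mul (n + 2 : ℝ)) e2
  simp only [Pi.sub_apply] at e3
  rw [integral_const_mul, integral_const_mul, integral_sub m2 (m1.const_mul (V / 32)),
    integral_const_mul, m3] at e3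
  refine le_trans ?_ e3
  have e4 : c / 32 * (V ^ 2 * volume.real Y) = c * (1 / 32 * (V ^ 2 * volume.real Y)) := by ring
  rw [e4]
  refine mul_le_mul_of_nonneg_left ?_ hc.le
  have e5 : V / 32 * (V * volume.real Y) = 1 / 32 * (V ^ 2 * volume.real Y) := by ring
  rw [e5]
  linarith

end Pool.Agent.MP_66cee2_co.B67
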