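import Pool.Agent.MP_66cee2_co.B67.Spec
import Pool.Agent.MP_66cee2_co.H53.Loc

/-
Row Core: the rank bound on near pairs, bounded labels.
-/

namespace Pool.Agent.MP_66cee2_co.B67

open MeasureTheory Set Filter Metric Topology Polynomial Pool.Agent.MP_66cee2_co.X
  Pool.Agent.MP_66cee2_co.B
open scoped RealInnerProductSpace

namespace Core3x

theorem loc1 (d n : ℕ) (ν : Measure (E d)) [IsFiniteMeasure ν] (β : E d → E n)
    (hβ : Measurable β) (A : ℝ) (hA : ∀ x, ‖β x‖ ≤ A) :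
    ν.real univ ^ 2 ≤ (n + 2) * ∫ x, ∫ y, (1 - ‖β x - β y‖ ^ 2) ^ 2 ∂ν ∂ν := by
  classical
  let g : Ix n → E d → ℝ := fun a x => match a with
    | Sum.inl i => β x i
    | Sum.inr true => 3 / 2 - ‖β x‖ ^ 2
    | Sum.inr false => 1 / 2 + ‖β x‖ ^ 2
  let w : Ix n → ℝ := fun a => match a with
    | Sum.inl _ => 2
    | Sum.inr true => 1 / 2
    | Sum.inr false => -1 / 2
  have hg : ∀ a, Measurable (g a) := by
    rintro (i | _ | _)
    · exact (by fun_prop : Continuous fun v : E n => v i).measurable.comp hβ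
    · exact measurable_const.add (hβ.norm.pow_const 2)
    · exact measurable_const.sub (hβ.norm.pow_const 2)
  have hgw : ∀ x y, ∑ a, w a * (g a x * g a y) = 1 - ‖β x - β y‖ ^ 2 := fun x y => by
    rw [norm_sub_sq_real]
    simp only [Fintype.sum_sum_type, Fintype.sum_bool, w, g, PiLp.inner_apply,
      RCLike.inner_apply, conj_trivial, ← Finset.mul_sum]
    rw [Finset.sum_congr rfl fun i _ => mul_comm (β y i) (β x i)]
    ring
  have hgC : ∀ a x, |g a x| ≤ 2 + A ^ 2 := fun a x => by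
    have h1 := hA x
    have h2 := norm_nonneg (β x)
    have h3 : ‖β x‖ ^ 2 ≤ A ^ 2 := pow_le_pow_left₀ h2 h1 2
    have h5 : 0 ≤ ‖β x‖ ^ 2 := sq_nonneg _
    rcases a with i | _ | _
    · have h4 : |β x i| ≤ ‖β x‖ := PiLp.norm_apply_le (β x) i
      exact h4.trans (by nlinarith [sq_nonneg (A - 1)])
    · exact abs_le.2 ⟨by simp only [g]; linarith, by simp only [g]; linarith⟩
    · exact abs_le.2 ⟨by simp only [g]; linarith, by simp only [g]; linarith⟩
  have key := H53.ker_rank ν g hg _ hgC w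
  have k4 : (Fintype.card (Ix n) : ℝ) = n + 2 := by simp
  simp only [hgw] at key
  rw [k4] at key
  simpa using key

end Core3x

theorem sCore3 : SSig3 → SCore3 := by
  intro hS d n ν _ β z t γ τ hβ ⟨A, hA⟩ ht τ0 hγ hτ
  have h1 := Core3x.loc1 d n ν β hβ A hA
  have h2 : SigB ν (fun x => x - z) β τ :=
    hS (E d) d n ν (fun x => x - z) β (max t A) τ (measurable_id.sub measurable_const) hβ
      (ht.mono fun x hx => ⟨hx.trans (le_max_left _ _), (hA x).trans (le_max_right _ _)⟩) τ0 hτ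
  obtain ⟨K, hK⟩ : ∃ K : E d × E d → ℝ, K = fun p => (1 - ‖β p.1 - β p.2‖ ^ 2) ^ 2 := ⟨_, rfl⟩
  have Ke : ∀ x y, (1 - ‖β x - β y‖ ^ 2) ^ 2 = K (x, y) := fun x y => by rw [hK]
  have K0 : ∀ p, 0 ≤ K p := fun p => by
    rw [hK]
    exact sq_nonneg _
  have Km : Measurable K := by
    rw [hK]
    have h3 : Measurable fun p : E d × E d => β p.1 - β p.2 :=
      (hβ.comp measurable_fst).sub (hβ.comp measurable_snd)
    exact (measurable_const.sub (h3.norm.pow_const 2)).pow_const 2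
  have Kb : ∀ p, ‖K p‖ ≤ (1 + (A + A) ^ 2) ^ 2 := fun p => by
    rw [Real.norm_eq_abs, abs_of_nonneg (K0 p), hK]
    have h3 : ‖β p.1 - β p.2‖ ≤ A + A := (norm_sub_le _ _).trans (add_le_add (hA _) (hA _))
    have h4 := pow_le_pow_left₀ (norm_nonneg _) h3 2
    have h5 := sq_nonneg ‖β p.1 - β p.2‖
    exact sq_le_sq' (by linarith) (by linarith)
  have Ki : Integrable K (ν.prod ν) :=
    Integrable.of_bound Km.aestronglyMeasurable _ (.of_forall Kb)
  have ae : ∀ᵐ p ∂ν.prod ν, ‖p.1 - z‖ ≤ t ∧ ‖p.2 - z‖ ≤ t :=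
    (Measure.quasiMeasurePreserving_fst.ae ht).and (Measure.quasiMeasurePreserving_snd.ae ht)
  have i1 : Integrable (fun p : E d × E d => ⟪p.1 - z, p.2 - z⟫ * K p) (ν.prod ν) := by
    refine Ki.bdd_mul (c := t * t) (Continuous.aestronglyMeasurable (by fun_prop))
      (ae.mono fun p hp => (norm_inner_le_norm _ _).trans ?_)
    exact mul_le_mul hp.1 hp.2 (norm_nonneg _) ((norm_nonneg _).trans hp.1)
  have i2 : Integrable (fun p : E d × E d => max (2 * t ^ 2 + γ - ‖p.2 - p.1‖ ^ 2) 0 * K p)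
      (ν.prod ν) := by
    refine Ki.bdd_mul (c := 2 * t ^ 2 + γ) (Continuous.aestronglyMeasurable (by fun_prop))
      (.of_forall fun p => ?_)
    rw [Real.norm_eq_abs, abs_of_nonneg (le_max_right _ _)]
    exact max_le (by linarith [sq_nonneg ‖p.2 - p.1‖]) (by nlinarith [sq_nonneg t])
  have mono : ∫ p, (γ * K p + 2 * (⟪p.1 - z, p.2 - z⟫ * K p)) ∂ν.prod ν ≤
      ∫ p, max (2 * t ^ 2 + γ - ‖p.2 - p.1‖ ^ 2) 0 * K p ∂ν.prod ν := by
    refine integral_mono_ae ((Ki.const_mul γ).add (i1.const_mul 2)) i2 (ae.mono fun p hp => ?_)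
    have e : p.2 - p.1 = (p.2 - z) - (p.1 - z) := by abel
    have h3 := norm_sub_sq_real (p.2 - z) (p.1 - z)
    rw [← e, real_inner_comm] at h3
    have h4 := pow_le_pow_left₀ (norm_nonneg _) hp.1 2
    have h5 := pow_le_pow_left₀ (norm_nonneg _) hp.2 2
    have h6 : γ + 2 * ⟪p.1 - z, p.2 - z⟫ ≤ max (2 * t ^ 2 + γ - ‖p.2 - p.1‖ ^ 2) 0 :=
      le_max_of_le_left (by linarith)
    have h7 := mul_le_mul_of_nonneg_right h6 (K0 p)
    show γ * K p + 2 * (⟪p.1 - z, p.2 - z⟫ * K p) ≤ _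
    linarith
  rw [integral_add (Ki.const_mul γ) (i1.const_mul 2), integral_const_mul, integral_const_mul,
    integral_prod _ Ki, integral_prod _ i1, integral_prod _ i2] at mono
  have b0 : 0 ≤ ∫ x, ∫ y, K (x, y) ∂ν ∂ν := integral_nonneg fun x => integral_nonneg fun y => K0 _
  simp only [SigB, Ke] at h1 h2 mono ⊢
  obtain ⟨b, hb⟩ : ∃ b, b = ∫ x, ∫ y, K (x, y) ∂ν ∂ν := ⟨_, rfl⟩
  rw [← hb] at h1 h2 mono b0
  have hn : (0 : ℝ) ≤ n + 2 := by positivity
  have h8 : 0 ≤ (γ - 16 * τ) * b := mul_nonneg (by linarith) b0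
  calc γ / 2 * ν.real univ ^ 2 ≤ γ / 2 * ((n + 2) * b) :=
        mul_le_mul_of_nonneg_left h1 (by linarith)
    _ = (n + 2) * (γ / 2 * b) := by ring
    _ ≤ _ := mul_le_mul_of_nonneg_left (by linarith) hn

end Pool.Agent.MP_66cee2_co.B67
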