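import Pool.Agent.MP_66cee2_co.B67.Spec
import Pool.Agent.MP_66cee2_co.B82.Ct
import Pool.Agent.MP_66cee2_co.B82.Rad

/-
Cosine transform of the cut kernel.
-/

namespace Pool.Agent.MP_66cee2_co.B67

open MeasureTheory Set Filter Metric Topology Pool.Agent.MP_66cee2_co.X
  Pool.Agent.MP_66cee2_co.B
open scoped RealInnerProductSpace

namespace Ct3x

theorem shift (l : ℕ) (F : ℝ → ℝ) (v : ℝ) :
    ∫ s in Ioi (0 : ℝ), s ^ l * F (v + s) = ∫ σ in Ioi v, (σ - v) ^ l * F σ := by
  rw [← integral_indicator measurableSet_Ioi, ← integral_indicator measurableSet_Ioi,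
    ← integral_add_left_eq_self (fun σ => (Ioi v).indicator (fun σ => (σ - v) ^ l * F σ) σ) v]
  refine integral_congr_ae (ae_of_all _ fun s => ?_)
  by_cases h : 0 < s
  · have h' : v + s ∈ Ioi v := by simpa using h
    simp only [indicator_of_mem (mem_Ioi.2 h), indicator_of_mem h', add_sub_cancel_left]
  · have h' : v + s ∉ Ioi v := by simpa using h
    simp only [indicator_of_notMem (fun g => h (mem_Ioi.1 g)), indicator_of_notMem h']

theorem ct3 : SCt3 := by
  intro l
  have hf : Continuous (Fq l) := by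
    unfold Fq
    fun_prop
  have h0 : ∀ s, cc ≤ s → Fq l s = 0 := fun s hs => by
    rw [Fq, max_eq_right (by linarith), zero_mul]
  have hl : (l.factorial : ℝ) ≠ 0 := by positivity
  refine ⟨B82.Rad.cont _ hf, B82.Rad.integrable _ hf h0, Real.pi ^ (l + 1) / (l.factorial : ℝ),
    by positivity, ?_, fun ξ => ?_⟩
  · have e : Real.pi ^ (l + 1) / (l.factorial : ℝ) =
        (l + 1) * (Real.pi ^ (l + 1) / ((l + 1).factorial : ℝ)) := by
      rw [Nat.factorial_succ]
      push_cast
      field_simp
    rw [e, mul_assoc]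
    exact mul_le_mul_of_nonneg_left (B82.Ctx.vol_ge l) (by positivity)
  · rw [ct, B82.Rad.radial l hf h0 ξ, ← integral_const_mul]
    refine integral_congr_ae (ae_of_all _ fun u => ?_)
    simp only [hq, shift]
    ring

end Ct3x

theorem sCt3 : SRad → SCt3 := fun _ => Ct3x.ct3

end Pool.Agent.MP_66cee2_co.B67
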