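import Pool.Agent.MP_66cee2_co.B67.Spec

/-
Row Far: far pairs are rare.
-/

namespace Pool.Agent.MP_66cee2_co.B67

open MeasureTheory Set Filter Metric Topology Pool.Agent.MP_66cee2_co.X
  Pool.Agent.MP_66cee2_co.B
open scoped RealInnerProductSpace

namespace Farx

theorem psi_bd {s : ℝ} (hs : 0 ≤ s) : 0 ≤ psi s ∧ psi s ≤ 1 := by
  have h1 := Real.exp_pos (-s)
  have h2 := Real.exp_pos (-1)
  have h3 : Real.exp (-s) ≤ 1 := Real.exp_le_one_iff.2 (by linarith)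
  have h4 : Real.exp (-1) ≤ 1 := Real.exp_le_one_iff.2 (by norm_num)
  exact ⟨sq_nonneg _, by unfold psi; nlinarith⟩

theorem pw {d : ℕ} {x y z : E d} {t γ s : ℝ} (hx : ‖x - z‖ ≤ t) (hy : ‖y - z‖ ≤ t) (hγ : 0 < γ)
    (s0 : 0 ≤ s) (s1 : s ≤ 1) :
    s ≤ 2 / γ * (max (2 * t ^ 2 + γ - ‖y - x‖ ^ 2) 0 * s) + 16 / γ ^ 2 * ⟪x - z, y - z⟫ ^ 2 := by
  have h1 := norm_sub_sq_real (x - z) (y - z)
  rw [sub_sub_sub_cancel_right, norm_sub_rev] at h1
  have h2 : ‖x - z‖ ^ 2 ≤ t ^ 2 := pow_le_pow_left₀ (norm_nonneg _) hx 2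
  have h3 : ‖y - z‖ ^ 2 ≤ t ^ 2 := pow_le_pow_left₀ (norm_nonneg _) hy 2
  have h4 := le_max_left (2 * t ^ 2 + γ - ‖y - x‖ ^ 2) 0
  have h5 := le_max_right (2 * t ^ 2 + γ - ‖y - x‖ ^ 2) 0
  obtain ⟨w, hw⟩ : ∃ w, w = max (2 * t ^ 2 + γ - ‖y - x‖ ^ 2) 0 := ⟨_, rfl⟩
  obtain ⟨q, hq⟩ : ∃ q, q = ⟪x - z, y - z⟫ := ⟨_, rfl⟩
  rw [← hw] at h4 h5 ⊢
  rw [← hq] at h1 ⊢
  by_cases h : γ / 2 ≤ w
  · have a1 : 1 ≤ 2 / γ * w := by
      rw [div_mul_eq_mul_div, le_div_iff₀ hγ]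
      linarith
    have a2 : 0 ≤ 16 / γ ^ 2 * q ^ 2 := by positivity
    nlinarith [mul_le_mul_of_nonneg_right a1 s0]
  · have a1 : 1 ≤ 16 / γ ^ 2 * q ^ 2 := by
      rw [div_mul_eq_mul_div, le_div_iff₀ (by positivity)]
      nlinarith
    have a2 : 0 ≤ 2 / γ * (w * s) := by positivity
    linarith

end Farx

open Farx in
theorem sFar : SFar := by
  intro d n ν _ β z t γ τ hβ ht hγ hτ
  have hp : Measurable fun p : E d × E d => psi (‖β p.1 - β p.2‖ ^ 2) := by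
    unfold psi
    fun_prop
  have ae : ∀ᵐ p ∂ν.prod ν, ‖p.1 - z‖ ≤ t ∧ ‖p.2 - z‖ ≤ t :=
    (Measure.quasiMeasurePreserving_fst.ae ht).and (Measure.quasiMeasurePreserving_snd.ae ht)
  have i1 : Integrable (fun p : E d × E d => psi (‖β p.1 - β p.2‖ ^ 2)) (ν.prod ν) :=
    Integrable.of_bound hp.aestronglyMeasurable 1 (Eventually.of_forall fun p => by
      rw [Real.norm_of_nonneg (psi_bd (sq_nonneg _)).1]
      exact (psi_bd (sq_nonneg _)).2)
  have i2 : Integrable (fun p : E d × E d =>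
      max (2 * t ^ 2 + γ - ‖p.2 - p.1‖ ^ 2) 0 * psi (‖β p.1 - β p.2‖ ^ 2)) (ν.prod ν) := by
    refine i1.bdd_mul (c := 2 * t ^ 2 + γ) (Continuous.aestronglyMeasurable (by fun_prop))
      (Eventually.of_forall fun p => ?_)
    rw [Real.norm_of_nonneg (le_max_right _ _)]
    exact max_le (by linarith [sq_nonneg ‖p.2 - p.1‖]) (by positivity)
  have i3 : Integrable (fun p : E d × E d => ⟪p.1 - z, p.2 - z⟫ ^ 2) (ν.prod ν) := by
    refine Integrable.of_bound (Continuous.aestronglyMeasurable (by fun_prop)) ((t * t) ^ 2)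
      (ae.mono fun p h => ?_)
    rw [norm_pow]
    refine pow_le_pow_left₀ (norm_nonneg _) ((norm_inner_le_norm _ _).trans ?_) 2
    exact mul_le_mul h.1 h.2 (norm_nonneg _) ((norm_nonneg _).trans h.1)
  have h1 := integral_mono_ae i1 ((i2.const_mul (2 / γ)).add (i3.const_mul (16 / γ ^ 2)))
    (ae.mono fun p h => pw h.1 h.2 hγ (psi_bd (sq_nonneg _)).1 (psi_bd (sq_nonneg _)).2)
  have h2 := integral_add (i2.const_mul (2 / γ)) (i3.const_mul (16 / γ ^ 2))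
  rw [integral_const_mul, integral_const_mul, integral_prod _ i2, integral_prod _ i3] at h2
  rw [integral_prod _ i1] at h1
  have h3 := integral_mono_ae i3.integral_prod_left (integrable_const (τ ^ 2 * ν.real univ)) hτ
  rw [integral_const, smul_eq_mul] at h3
  have h4 := mul_le_mul_of_nonneg_left h3 (by positivity : 0 ≤ 16 / γ ^ 2)
  refine (h1.trans (le_of_eq h2)).trans (add_le_add le_rfl (h4.trans (le_of_eq ?_)))
  ring

end Pool.Agent.MP_66cee2_co.B67
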