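import Pool.Agent.MP_66cee2_co.B67.Spec
import Pool.Agent.MP_66cee2_co.H84T.H37Rank

/-
The signed bound for centred labels.
-/

namespace Pool.Agent.MP_66cee2_co.B67

open MeasureTheory Set Pool.Agent.MP_66cee2_co.X Pool.Agent.MP_66cee2_co.H84T.H37
open scoped RealInnerProductSpace

theorem H37.sig_all {Ω : Type} [MeasurableSpace Ω] {d n : ℕ} (ν : Measure Ω) [IsFiniteMeasure ν]
    {X : Ω → E d} {b : Ω → E n} (hX : Measurable X) (hb : Measurable b) {C : ℝ}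
    (hC : ∀ x, ‖X x‖ ≤ C) (hD : ∀ x, ‖b x‖ ≤ C) (h0 : ∀ j, ∫ x, b x j ∂ν = 0) {τ : ℝ}
    (hτ : 0 ≤ τ) (hi : ∀ᵐ x ∂ν, ∫ y, ⟪X x, X y⟫ ^ 2 ∂ν ≤ τ ^ 2 * ν.real univ) :
    SigB ν X b τ := by
  have bK : BM fun p : Ω × Ω => (1 - ‖b p.1 - b p.2‖ ^ 2) ^ 2 :=
    ((BM.const 1).sub (BM.sq ⟨by fun_prop, C + C, fun p => (abs_norm _).le.trans
      ((norm_sub_le _ _).trans (add_le_add (hD _) (hD _)))⟩)).sq
  have bg := (BM.inn hX hC).mul bK
  unfold SigB
  rw [← integral_prod _ (bK.int _), ← integral_prod _ (bg.int _)]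
  have k0 : 0 ≤ ∫ p : Ω × Ω, (1 - ‖b p.1 - b p.2‖ ^ 2) ^ 2 ∂(ν.prod ν) :=
    integral_nonneg fun p => sq_nonneg _
  have k1 : ∀ s : ℝ, τ < s → 0 ≤ ∫ p : Ω × Ω, ⟪X p.1, X p.2⟫ * (1 - ‖b p.1 - b p.2‖ ^ 2) ^ 2
      ∂(ν.prod ν) + 2 * s * ∫ p : Ω × Ω, (1 - ‖b p.1 - b p.2‖ ^ 2) ^ 2 ∂(ν.prod ν) := by
    intro s hs
    have h := rank_c ν hX hb hC hD h0 (hτ.trans_lt hs) (hi.mono fun x hx => hx.trans
      (mul_le_mul_of_nonneg_right (pow_le_pow_left₀ hτ hs.le 2) measureReal_nonneg))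
    simp only [add_mul] at h
    rwa [integral_add (bg.int _) (((BM.const _).mul bK).int _), integral_const_mul] at h
  generalize ∫ p : Ω × Ω, ⟪X p.1, X p.2⟫ * (1 - ‖b p.1 - b p.2‖ ^ 2) ^ 2 ∂(ν.prod ν) = I at k1 ⊢
  generalize ∫ p : Ω × Ω, (1 - ‖b p.1 - b p.2‖ ^ 2) ^ 2 ∂(ν.prod ν) = J at k0 k1 ⊢
  refine le_of_forall_pos_le_add fun ε hε => ?_
  have h1 : 0 < ε / (2 * J + 1) := by positivity
  have h2 := k1 (τ + ε / (2 * J + 1)) (by linarith)
  have h3 : ε / (2 * J + 1) * (2 * J + 1) = ε := div_mul_cancel₀ _ (by positivity)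
  nlinarith [mul_nonneg hτ k0]

theorem sSig0' : SSig0 := by
  intro Ω _ d n ν _ X β A τ hX hβ hA hτ hi h0
  obtain ⟨S, hS⟩ : ∃ S : Set Ω, S = {x | ‖X x‖ ≤ A} ∩ {x | ‖β x‖ ≤ A} := ⟨_, rfl⟩
  have mS : MeasurableSet S := by
    rw [hS]
    exact (measurableSet_le hX.norm measurable_const).inter
      (measurableSet_le hβ.norm measurable_const)
  have aS : ∀ᵐ x ∂ν, S.indicator X x = X x ∧ S.indicator β x = β x := hA.mono fun x hx => by
    have : x ∈ S := by rw [hS]; exact hx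
    exact ⟨indicator_of_mem this _, indicator_of_mem this _⟩
  have bd : ∀ x, ‖S.indicator X x‖ ≤ |A| ∧ ‖S.indicator β x‖ ≤ |A| := fun x => by
    by_cases hx : x ∈ S
    · rw [indicator_of_mem hx, indicator_of_mem hx]
      rw [hS] at hx
      exact ⟨le_trans hx.1 (le_abs_self A), le_trans hx.2 (le_abs_self A)⟩
    · rw [indicator_of_notMem hx, indicator_of_notMem hx]
      simp
  have h := H37.sig_all ν (hX.indicator mS) (hβ.indicator mS) (fun x => (bd x).1)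
    (fun x => (bd x).2) (fun j => (integral_congr_ae (aS.mono fun x hx => by
      simp only [hx.2])).trans (h0 j)) hτ (by
      filter_upwards [hi, aS] with x h1 h2
      refine le_of_eq_of_le (integral_congr_ae (aS.mono fun y hy => ?_)) h1
      simp only [h2.1, hy.1])
  unfold SigB at h ⊢
  refine le_of_eq_of_le ?_ (h.trans_eq ?_)
  · congr 1
    refine integral_congr_ae (aS.mono fun x hx => integral_congr_ae (aS.mono fun y hy => ?_))
    simp only [hx.2, hy.2]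
  · refine integral_congr_ae (aS.mono fun x hx => integral_congr_ae (aS.mono fun y hy => ?_))
    simp only [hx.1, hx.2, hy.1, hy.2]

end Pool.Agent.MP_66cee2_co.B67
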