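import Pool.Agent.MP_66cee2_co.B67.Spec
import Pool.Agent.MP_66cee2_co.B.Psi

/-
The local rank bound on near pairs.
-/

namespace Pool.Agent.MP_66cee2_co.B67.H52

open MeasureTheory Set Filter Metric Topology Pool.Agent.MP_66cee2_co.X Pool.Agent.MP_66cee2_co.B
open scoped RealInnerProductSpace

theorem iter_le {d : ℕ} (ν ν' : Measure (E d)) [IsFiniteMeasure ν] (h : ν' ≤ ν)
    (F G : E d → E d → ℝ) (K : ℝ) (hF : Measurable (Function.uncurry F)) (h0 : ∀ x y, 0 ≤ F x y)
    (hK : ∀ x y, F x y ≤ K) (g0 : ∀ x y, 0 ≤ G x y) (hG : ∀ᵐ x ∂ν', ∀ᵐ y ∂ν', G x y ≤ F x y) :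
    ∫ x, ∫ y, G x y ∂ν' ∂ν' ≤ ∫ x, ∫ y, F x y ∂ν ∂ν := by
  have i1 : ∀ x, Integrable (F x) ν := fun x =>
    Integrable.of_bound hF.of_uncurry_left.aestronglyMeasurable K
      (ae_of_all _ fun y => by rw [Real.norm_of_nonneg (h0 x y)]; exact hK x y)
  have i2 : Integrable (fun x => ∫ y, F x y ∂ν) ν :=
    Integrable.of_bound hF.stronglyMeasurable.integral_prod_right.aestronglyMeasurable
      (K * ν.real univ) (ae_of_all _ fun x => norm_integral_le_of_norm_le_const
        (ae_of_all _ fun y => by rw [Real.norm_of_nonneg (h0 x y)]; exact hK x y))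
  refine le_trans (integral_mono_of_nonneg (ae_of_all _ fun x => integral_nonneg (g0 x))
    (i2.mono_measure h) ?_)
    (integral_mono_measure h (ae_of_all _ fun x => integral_nonneg (h0 x)) i2)
  filter_upwards [hG] with x hx
  exact (integral_mono_of_nonneg (ae_of_all _ (g0 x)) ((i1 x).mono_measure h) hx).trans
    (integral_mono_measure h (ae_of_all _ (h0 x)) (i1 x))

theorem var (hI : SIso) {d : ℕ} {S : Set (E d)} {z : E d} {t δ τ : ℝ} (ht : 0 < t) (hδ : 0 < δ)
    (hS : MeasurableSet S) (h1 : S ⊆ ball z t)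
    (h2 : δ * volume.real (ball z t) ≤ 2 * volume.real S) (hd : 2 * t ^ 4 ≤ d * (τ ^ 2 * δ)) :
    (∀ᵐ x ∂volume.restrict S, ‖x - z‖ ≤ t) ∧ ∀ᵐ x ∂volume.restrict S,
      ∫ y in S, ⟪x - z, y - z⟫ ^ 2 ≤ τ ^ 2 * (volume.restrict S).real univ := by
  have n1 : ∀ x ∈ S, ‖x - z‖ ≤ t := fun x hx => (mem_ball_iff_norm.1 (h1 hx)).le
  refine ⟨(ae_restrict_mem hS).mono n1, (ae_restrict_mem hS).mono fun x hx => ?_⟩
  have d0 : (0 : ℝ) < d := by
    have : 0 < d * (τ ^ 2 * δ) := lt_of_lt_of_le (by positivity) hd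
    exact (Nat.cast_nonneg d).lt_of_ne fun e => by rw [← e, zero_mul] at this; exact this.false
  have c : Continuous fun y : E d => ⟪x - z, y - z⟫ ^ 2 := by fun_prop
  have i : IntegrableOn (fun y : E d => ⟪x - z, y - z⟫ ^ 2) (ball z t) :=
    (c.continuousOn.integrableOn_compact (isCompact_closedBall z t)).mono_set ball_subset_closedBall
  have e1 := setIntegral_mono_set i (ae_of_all _ fun y => sq_nonneg _) h1.eventuallyLE
  have e2 := hI d z (x - z) t ht
  have e3 : ‖x - z‖ ^ 2 ≤ t ^ 2 := pow_le_pow_left₀ (norm_nonneg _) (n1 x hx) 2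
  have v0 : 0 ≤ volume.real (ball z t) := measureReal_nonneg
  have s0 : 0 ≤ volume.real S := measureReal_nonneg
  rw [measureReal_restrict_apply_univ]
  refine le_of_mul_le_mul_left ?_ (mul_pos d0 hδ)
  calc d * δ * ∫ y in S, ⟪x - z, y - z⟫ ^ 2
      ≤ δ * (d * ∫ y in ball z t, ⟪x - z, y - z⟫ ^ 2) := by
        rw [mul_comm (d : ℝ) δ, mul_assoc]; gcongr
    _ ≤ δ * (t ^ 2 * t ^ 2 * volume.real (ball z t)) := by
        refine mul_le_mul_of_nonneg_left (e2.trans ?_) hδ.le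
        gcongr
    _ = t ^ 4 * (δ * volume.real (ball z t)) := by ring
    _ ≤ t ^ 4 * (2 * volume.real S) := by gcongr
    _ = 2 * t ^ 4 * volume.real S := by ring
    _ ≤ d * (τ ^ 2 * δ) * volume.real S := by gcongr
    _ = _ := by ring

theorem sLoc3 : SIso → SCore3 → SFar → SSel3 → SLoc3 := by
  intro hI hC hF hS t γ δ ht hγ hδ
  obtain ⟨p1, p2, p3, -, p5⟩ := sPsi
  have e0 : 0 < Real.exp 12 := Real.exp_pos _
  refine ⟨min (γ / 800) (γ / (8 * Real.exp 12)), by positivity, ?_⟩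
  filter_upwards [tendsto_natCast_atTop_atTop.eventually_ge_atTop
    (2 * t ^ 4 / ((γ / 80) ^ 2 * δ))] with d hd n Y β z hY hβ h1 h2
  rw [div_le_iff₀ (by positivity)] at hd
  have fin : volume Y ≠ ⊤ := ((measure_mono h1).trans_lt measure_ball_lt_top).ne
  have : IsFiniteMeasure (volume.restrict Y) := isFiniteMeasure_restrict.2 fin
  have N0 : 0 ≤ volume.real Y := measureReal_nonneg
  obtain ⟨a1, a2⟩ := var hI ht hδ hY h1 (by linarith) hd
  have f := hF d n _ β z t γ (γ / 80) hβ a1 hγ a2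
  rw [measureReal_restrict_apply_univ] at f
  set I := ∫ x in Y, ∫ y in Y, max (2 * t ^ 2 + γ - ‖y - x‖ ^ 2) 0 * psi (‖β x - β y‖ ^ 2) with hI'
  set N := volume.real Y with hN
  have I0 : 0 ≤ I := integral_nonneg fun x => integral_nonneg fun y =>
    mul_nonneg (le_max_right _ _) (p2 _)
  have n0 : (0 : ℝ) ≤ n := Nat.cast_nonneg n
  by_cases hc : γ / 800 * N ^ 2 ≤ I
  · have := mul_le_mul_of_nonneg_right (min_le_left (γ / 800) (γ / (8 * Real.exp 12))) (sq_nonneg N)
    nlinarith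
  have g : 2 / γ * I + 16 * (γ / 80) ^ 2 / γ ^ 2 * N ^ 2 ≤ N ^ 2 / 200 := by
    have b1 : 2 / γ * I ≤ 2 / γ * (γ / 800 * N ^ 2) :=
      mul_le_mul_of_nonneg_left (not_le.1 hc).le (by positivity)
    have b2 : 2 / γ * (γ / 800 * N ^ 2) = N ^ 2 / 400 := by field_simp; ring
    have b3 : 16 * (γ / 80) ^ 2 / γ ^ 2 * N ^ 2 = N ^ 2 / 400 := by field_simp; ring
    linarith
  obtain ⟨p, hp⟩ := hS d n (volume.restrict Y) β hβ
    (by rw [measureReal_restrict_apply_univ]; exact f.trans g)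
  have mT : MeasurableSet {x | ‖β x - p‖ ^ 2 < 3 / 2} :=
    measurableSet_lt (by fun_prop) measurable_const
  rw [measureReal_restrict_apply_univ, measureReal_restrict_apply mT] at hp
  set S := {x | ‖β x - p‖ ^ 2 < 3 / 2} ∩ Y with hSd
  have mS : MeasurableSet S := mT.inter hY
  have sub : S ⊆ Y := inter_subset_right
  have : IsFiniteMeasure (volume.restrict S) :=
    isFiniteMeasure_restrict.2 (ne_top_of_le_ne_top fin (measure_mono sub))
  obtain ⟨b1, b2⟩ := var hI ht hδ mS (sub.trans h1) (by linarith) hd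
  have k := hC d n (volume.restrict S) (S.indicator fun x => β x - p) z t γ (γ / 80)
    (Measurable.indicator (by fun_prop) mS) ⟨2, fun x => by
      by_cases hx : x ∈ S
      · rw [indicator_of_mem hx]
        have : ‖β x - p‖ ^ 2 < 3 / 2 := hx.1
        nlinarith [norm_nonneg (β x - p)]
      · rw [indicator_of_notMem hx]; simp⟩ b1 (by positivity) (by linarith) b2
  rw [measureReal_restrict_apply_univ] at k
  have m := iter_le (volume.restrict Y) (volume.restrict S) (Measure.restrict_mono sub le_rfl)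
    (fun x y => Real.exp 12 * (max (2 * t ^ 2 + γ - ‖y - x‖ ^ 2) 0 * psi (‖β x - β y‖ ^ 2)))
    (fun x y => max (2 * t ^ 2 + γ - ‖y - x‖ ^ 2) 0 *
      (1 - ‖S.indicator (fun x => β x - p) x - S.indicator (fun x => β x - p) y‖ ^ 2) ^ 2)
    (Real.exp 12 * ((2 * t ^ 2 + γ) * 1))
    (by
      have := p1.measurable
      unfold Function.uncurry
      fun_prop)
    (fun x y => mul_nonneg e0.le (mul_nonneg (le_max_right _ _) (p2 _)))
    (fun x y => mul_le_mul_of_nonneg_left (mul_le_mul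
      (max_le (by nlinarith [sq_nonneg ‖y - x‖]) (by positivity)) (p3 _ (sq_nonneg _)).1 (p2 _)
      (by positivity)) e0.le)
    (fun x y => mul_nonneg (le_max_right _ _) (sq_nonneg _))
    ((ae_restrict_mem mS).mono fun x hx => (ae_restrict_mem mS).mono fun y hy => by
      have c1 : ‖β x - p‖ ^ 2 < 3 / 2 := hx.1
      have c2 : ‖β y - p‖ ^ 2 < 3 / 2 := hy.1
      have c3 : ‖β x - β y‖ ≤ ‖β x - p‖ + ‖β y - p‖ := by
        simpa using norm_sub_le (β x - p) (β y - p)
      have c4 : ‖β x - β y‖ ^ 2 ≤ 6 := by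
        nlinarith [pow_le_pow_left₀ (norm_nonneg _) c3 2, sq_nonneg (‖β x - p‖ - ‖β y - p‖)]
      rw [indicator_of_mem hx, indicator_of_mem hy, sub_sub_sub_cancel_right, mul_left_comm]
      exact mul_le_mul_of_nonneg_left (p5 _ (sq_nonneg _) c4) (le_max_right _ _))
  simp only [integral_const_mul] at m
  rw [← hI'] at m
  have q1 := k.trans (mul_le_mul_of_nonneg_left m (by positivity))
  have q2 : (N / 2) ^ 2 ≤ volume.real S ^ 2 := pow_le_pow_left₀ (by positivity) hp 2
  refine (mul_le_mul_of_nonneg_right (min_le_right _ _) (sq_nonneg N)).trans ?_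
  rw [div_mul_eq_mul_div, div_le_iff₀ (by positivity)]
  nlinarith [mul_le_mul_of_nonneg_left q2 hγ.le]

end Pool.Agent.MP_66cee2_co.B67.H52
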