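import Pool.Agent.MP_66cee2_co.B67.Spec

/-
Explicit base with a cut ball kernel: the marginal on the unit interval.
-/

namespace Pool.Agent.MP_66cee2_co.B67

open MeasureTheory Set Polynomial

namespace Inx

/-- the beta integral. -/
noncomputable def be (l k : ℕ) : ℝ := ∫ x in (0 : ℝ)..1, x ^ l * (1 - x) ^ k

theorem be_le (l j : ℕ) : |be l (l + j)| * 4 ^ l ≤ 1 := by
  have h : ‖be l (l + j)‖ ≤ (1 / 4) ^ l * |(1 : ℝ) - 0| := by
    refine intervalIntegral.norm_integral_le_of_norm_le_const fun x hx => ?_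
    rw [uIoc_of_le zero_le_one] at hx
    have h0 : 0 ≤ x := hx.1.le
    have h1 : 0 ≤ 1 - x := sub_nonneg.2 hx.2
    rw [Real.norm_of_nonneg (by positivity), pow_add, ← mul_assoc, ← mul_pow]
    have h2 : (x * (1 - x)) ^ l ≤ (1 / 4) ^ l :=
      pow_le_pow_left₀ (by positivity) (by nlinarith [sq_nonneg (x - 1 / 2)]) l
    have h3 : (1 - x) ^ j ≤ 1 := pow_le_one₀ h1 (by linarith)
    exact (mul_le_of_le_one_right (by positivity) h3).trans h2
  rw [Real.norm_eq_abs, sub_zero, abs_one, mul_one] at h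
  have e : ((1 : ℝ) / 4) ^ l * 4 ^ l = 1 := by rw [← mul_pow]; norm_num
  exact (mul_le_mul_of_nonneg_right h (by positivity)).trans_eq e

theorem beta (l k : ℕ) (v R : ℝ) (h : v < R) :
    ∫ s in v..R, (s - v) ^ l * (R - s) ^ k = be l k * (R - v) ^ (l + k + 1) := by
  have hc : R - v ≠ 0 := (sub_pos.2 h).ne'
  have h1 := intervalIntegral.integral_comp_mul_add (a := 0) (b := 1)
    (fun s : ℝ => (s - v) ^ l * (R - s) ^ k) hc v
  have e : ∀ x : ℝ, ((R - v) * x + v - v) ^ l * (R - ((R - v) * x + v)) ^ k =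
      (R - v) ^ (l + k) * (x ^ l * (1 - x) ^ k) := fun x => by
    rw [show (R - v) * x + v - v = (R - v) * x by ring,
      show R - ((R - v) * x + v) = (R - v) * (1 - x) by ring, mul_pow, mul_pow, pow_add]
    ring
  simp only [e] at h1
  rw [intervalIntegral.integral_const_mul, mul_zero, zero_add, mul_one, sub_add_cancel,
    smul_eq_mul, eq_inv_mul_iff_mul_eq₀ hc] at h1
  rw [← h1, be]
  ring

theorem poly (l : ℕ) (g : ℝ → ℝ) (hg : Continuous g) (a b : ℝ) :
    ∃ p : ℝ[X], p.natDegree ≤ l ∧ ∀ v, ∫ s in a..b, (s - v) ^ l * g s = p.eval v := by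
  refine ⟨∑ m ∈ Finset.range (l + 1),
    C ((l.choose m : ℝ) * ∫ s in a..b, s ^ m * g s) * (-X) ^ (l - m), ?_, fun v => ?_⟩
  · refine natDegree_sum_le_of_forall_le _ _ fun m _ => (natDegree_C_mul_le _ _).trans ?_
    refine natDegree_pow_le.trans ?_
    rw [natDegree_neg, natDegree_X]
    omega
  · have e : ∀ s : ℝ, (s - v) ^ l * g s = ∑ m ∈ Finset.range (l + 1),
        (l.choose m : ℝ) * (-v) ^ (l - m) * (s ^ m * g s) := fun s => by
      rw [sub_eq_add_neg, add_pow, Finset.sum_mul]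
      exact Finset.sum_congr rfl fun m _ => by ring
    simp only [e]
    rw [intervalIntegral.integral_finsetSum fun m _ =>
      (by fun_prop : Continuous fun s : ℝ =>
        (l.choose m : ℝ) * (-v) ^ (l - m) * (s ^ m * g s)).intervalIntegrable _ _, eval_finsetSum]
    refine Finset.sum_congr rfl fun m _ => ?_
    rw [intervalIntegral.integral_const_mul, eval_mul, eval_C, eval_pow, eval_neg, eval_X]
    ring

theorem hq_eq (l : ℕ) (v : ℝ) (hv : v ≤ 1) :
    hq l v = ∫ s in v..cc, (s - v) ^ l * ((cc - s) * (ro ^ 2 - s) ^ (l + 1)) := by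
  have h1 : v ≤ cc := hv.trans (by norm_num [cc])
  have h2 : cc ≤ ro ^ 2 := by norm_num [cc, ro]
  rw [intervalIntegral.integral_of_le h1, hq,
    setIntegral_eq_of_subset_of_forall_sdiff_eq_zero measurableSet_Ioi
      (show Ioc v cc ⊆ Ioi v from Ioc_subset_Ioi_self)]
  · refine setIntegral_congr_fun measurableSet_Ioc fun s hs => ?_
    simp only [Fq]
    rw [max_eq_left (sub_nonneg.2 hs.2), max_eq_left (sub_nonneg.2 (hs.2.trans h2))]
  · intro s hs
    have h3 : cc < s := by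
      by_contra h
      exact hs.2 ⟨hs.1, not_lt.1 h⟩
    simp only [Fq]
    rw [max_eq_right (sub_nonpos.2 h3.le), zero_mul, mul_zero]

end Inx

open Inx in
theorem sIn : SIn := by
  intro l
  obtain ⟨p, hp, hp'⟩ := poly l (fun s => (cc - s) * (ro ^ 2 - s) ^ (l + 1)) (by fun_prop)
    (ro ^ 2) cc
  refine ⟨(cc - ro ^ 2) * be l (l + 1), be l (l + 2), p, ?_, be_le l 2, hp, fun v hv => ?_⟩
  · rw [abs_mul, mul_assoc]
    have h : |cc - ro ^ 2| ≤ 2 := by rw [abs_le]; norm_num [cc, ro]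
    have := mul_le_mul h (be_le l 1) (by positivity) (by norm_num)
    linarith
  · have hR : v < ro ^ 2 := hv.trans_lt (by norm_num [ro])
    have hc : Continuous fun s : ℝ => (s - v) ^ l * ((cc - s) * (ro ^ 2 - s) ^ (l + 1)) := by
      fun_prop
    rw [hq_eq l v hv, ← hp' v, ← intervalIntegral.integral_add_adjacent_intervals
      (hc.intervalIntegrable v (ro ^ 2)) (hc.intervalIntegrable (ro ^ 2) cc)]
    have e : ∀ s : ℝ, (s - v) ^ l * ((cc - s) * (ro ^ 2 - s) ^ (l + 1)) =
        (cc - ro ^ 2) * ((s - v) ^ l * (ro ^ 2 - s) ^ (l + 1)) +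
          (s - v) ^ l * (ro ^ 2 - s) ^ (l + 2) := fun s => by ring
    have h1 : ∫ s in v..ro ^ 2, (s - v) ^ l * ((cc - s) * (ro ^ 2 - s) ^ (l + 1)) =
        (cc - ro ^ 2) * be l (l + 1) * (ro ^ 2 - v) ^ (2 * l + 2) +
          be l (l + 2) * (ro ^ 2 - v) ^ (2 * l + 3) := by
      simp only [e]
      rw [intervalIntegral.integral_add
        ((by fun_prop : Continuous fun s : ℝ =>
          (cc - ro ^ 2) * ((s - v) ^ l * (ro ^ 2 - s) ^ (l + 1))).intervalIntegrable _ _)
        ((by fun_prop : Continuous fun s : ℝ =>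
          (s - v) ^ l * (ro ^ 2 - s) ^ (l + 2)).intervalIntegrable _ _),
        intervalIntegral.integral_const_mul, beta l (l + 1) v _ hR, beta l (l + 2) v _ hR,
        show l + (l + 1) + 1 = 2 * l + 2 by ring, show l + (l + 2) + 1 = 2 * l + 3 by ring]
      ring
    rw [h1]

end Pool.Agent.MP_66cee2_co.B67
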