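import Pool.Agent.MP_66cee2_co.B67.Spec

/-
The ball is isotropic.
-/

namespace Pool.Agent.MP_66cee2_co.B67

open MeasureTheory Set Filter Metric Topology Pool.Agent.MP_66cee2_co.X
open scoped RealInnerProductSpace

namespace Isox

theorem shift {d : ℕ} (z : E d) (t : ℝ) (f : E d → ℝ) :
    ∫ y in ball z t, f (y - z) = ∫ y in ball (0 : E d) t, f y := by
  rw [← integral_indicator measurableSet_ball, ← integral_indicator measurableSet_ball,
    ← integral_sub_right_eq_self ((ball (0 : E d) t).indicator f) z]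
  refine integral_congr_ae (ae_of_all _ fun y => ?_)
  by_cases h : y ∈ ball z t
  · have h' : y - z ∈ ball (0 : E d) t := by
      rw [mem_ball_zero_iff]; exact mem_ball_iff_norm.1 h
    simp only [indicator_of_mem h, indicator_of_mem h']
  · have h' : y - z ∉ ball (0 : E d) t := by
      rw [mem_ball_zero_iff]; exact fun k => h (mem_ball_iff_norm.2 k)
    simp only [indicator_of_notMem h, indicator_of_notMem h']

theorem rot {d : ℕ} (t : ℝ) (e ξ : E d) (hn : ‖e‖ = ‖ξ‖) :
    ∫ y in ball (0 : E d) t, ⟪ξ, y⟫ ^ 2 = ∫ y in ball (0 : E d) t, ⟪e, y⟫ ^ 2 := by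
  set R := (ℝ ∙ (e - ξ))ᗮ.reflection with hR
  have hRe : R e = ξ := Submodule.reflection_sub hn
  have h1 := R.measurePreserving.integral_comp R.toHomeomorph.measurableEmbedding
    ((ball (0 : E d) t).indicator fun y => ⟪ξ, y⟫ ^ 2)
  rw [← integral_indicator measurableSet_ball, ← integral_indicator measurableSet_ball, ← h1]
  refine integral_congr_ae (ae_of_all _ fun y => ?_)
  have h2 : ⟪ξ, R y⟫ = ⟪e, y⟫ := by
    conv_lhs => rw [← hRe]
    rw [R.inner_map_map]
  by_cases h : y ∈ ball (0 : E d) t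
  · have h' : R y ∈ ball (0 : E d) t := by
      rw [mem_ball_zero_iff, R.norm_map]; exact mem_ball_zero_iff.1 h
    simp only [indicator_of_mem h, indicator_of_mem h', h2]
  · have h' : R y ∉ ball (0 : E d) t := by
      rw [mem_ball_zero_iff, R.norm_map]; exact fun k => h (mem_ball_zero_iff.2 k)
    simp only [indicator_of_notMem h, indicator_of_notMem h']

theorem intg {d : ℕ} (t : ℝ) (f : E d → ℝ) (hf : Continuous f) :
    IntegrableOn f (ball (0 : E d) t) :=
  (hf.continuousOn.integrableOn_compact (isCompact_closedBall 0 t)).mono_set ball_subset_closedBall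

end Isox

theorem sIso : SIso := by
  intro d z ξ t ht
  rw [Isox.shift z t fun y => ⟪ξ, y⟫ ^ 2]
  have hv : volume.real (ball z t) = volume.real (ball (0 : E d) t) := by
    simp only [Measure.real, Measure.addHaar_ball_center]
  have h1 : ∀ i : Fin d, ∫ y in ball (0 : E d) t, ⟪ξ, y⟫ ^ 2 =
      ∫ y in ball (0 : E d) t, (‖ξ‖ * y i) ^ 2 := by
    intro i
    rw [Isox.rot t (EuclideanSpace.single i ‖ξ‖) ξ (by simp)]
    refine integral_congr_ae (ae_of_all _ fun y => ?_)
    simp only [EuclideanSpace.inner_single_left, conj_trivial]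
  have h2 : (d : ℝ) * ∫ y in ball (0 : E d) t, ⟪ξ, y⟫ ^ 2 =
      ∑ i : Fin d, ∫ y in ball (0 : E d) t, (‖ξ‖ * y i) ^ 2 := by
    rw [Finset.sum_congr rfl fun i _ => (h1 i).symm]
    simp
  rw [h2, ← integral_finsetSum _ fun i _ => Isox.intg t _ (by fun_prop), hv]
  have h3 : ∫ _y in ball (0 : E d) t, t ^ 2 * ‖ξ‖ ^ 2 =
      t ^ 2 * ‖ξ‖ ^ 2 * volume.real (ball (0 : E d) t) := by
    rw [setIntegral_const, smul_eq_mul, mul_comm]
  rw [← h3]
  refine setIntegral_mono_on (Isox.intg t _ (by fun_prop)) (Isox.intg t _ continuous_const)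
    measurableSet_ball fun y hy => ?_
  have h4 : ∑ i : Fin d, (‖ξ‖ * y i) ^ 2 = ‖y‖ ^ 2 * ‖ξ‖ ^ 2 := by
    rw [EuclideanSpace.real_norm_sq_eq y, Finset.sum_mul]
    exact Finset.sum_congr rfl fun i _ => by ring
  rw [h4]
  have h5 : ‖y‖ ≤ t := (mem_ball_zero_iff.1 hy).le
  gcongr

end Pool.Agent.MP_66cee2_co.B67
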