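import Pool.Agent.MP_66cee2_co.B67.Spec

/-
Explicit base with a cut ball kernel: the lens bound and the numerical inequality.
-/

namespace Pool.Agent.MP_66cee2_co.B67

open MeasureTheory Set Filter Metric Topology Pool.Agent.MP_66cee2_co.X

theorem sLens3 : SLens3 := by
  intro l x y
  have r0 : 0 < ro := by norm_num [ro]
  obtain ⟨A, hA⟩ : ∃ A, A = max (ro ^ 2 - ‖y - x‖ ^ 2) 0 := ⟨_, rfl⟩
  obtain ⟨C, hC⟩ : ∃ C, C = max (cc - ‖y - x‖ ^ 2) 0 := ⟨_, rfl⟩
  have A0 : 0 ≤ A := hA ▸ le_max_right _ _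
  have C0 : 0 ≤ C := hC ▸ le_max_right _ _
  have A1 : ro ^ 2 - ‖y - x‖ ^ 2 ≤ A := hA ▸ le_max_left _ _
  have A2 : √A ≤ ro := Real.sqrt_le_iff.2 ⟨r0.le, hA ▸ max_le (by nlinarith) (by positivity)⟩
  have sub : ball x (ro / 2) ∩ ball y (ro / 2) ⊆ closedBall ((1 / 2 : ℝ) • (x + y)) (√A / 2) := by
    rintro z ⟨h1, h2⟩
    rw [mem_ball_iff_norm] at h1 h2
    rw [mem_closedBall_iff_norm]
    have e := parallelogram_law_with_norm ℝ (z - x) (z - y)
    have e1 : z - x + (z - y) = (2 : ℝ) • (z - (1 / 2 : ℝ) • (x + y)) := by module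
    have e2 : z - x - (z - y) = y - x := by abel
    rw [e1, e2, norm_smul, Real.norm_ofNat] at e
    rw [le_div_iff₀ two_pos]
    refine Real.le_sqrt_of_sq_le ?_
    nlinarith [pow_lt_pow_left₀ h1 (norm_nonneg _) two_ne_zero,
      pow_lt_pow_left₀ h2 (norm_nonneg _) two_ne_zero]
  have key : volume.real (ball x (ro / 2) ∩ ball y (ro / 2)) ≤
      volume.real (ball (0 : E (2 * l + 3)) 1) * (ro / 2) / 4 ^ (l + 1) * A ^ (l + 1) := by
    refine (measureReal_mono sub measure_closedBall_lt_top.ne).trans ?_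
    rw [Measure.addHaar_real_closedBall _ _ (by positivity), finrank_euclideanSpace_fin]
    have e : (√A / 2) ^ (2 * l + 3) = √A / 2 / 4 ^ (l + 1) * A ^ (l + 1) := by
      rw [show 2 * l + 3 = 2 * (l + 1) + 1 by ring, pow_succ, pow_mul, div_pow, Real.sq_sqrt A0,
        div_pow]
      norm_num
      ring
    rw [e, mul_comm, mul_div_assoc, mul_assoc]
    gcongr
  rw [Fq, ← hA, ← hC, mul_comm C, ← mul_assoc]
  exact mul_le_mul_of_nonneg_right key C0

theorem sNum3 : SNum3 := by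
  intro c hc
  have t1 := tendsto_pow_const_mul_const_pow_of_abs_lt_one 2
    (r := ((46 / 25 : ℝ) ^ 2 * (59 / 200))) (by rw [abs_of_pos (by norm_num)]; norm_num)
  filter_upwards [t1.eventually (gt_mem_nhds (show (0 : ℝ) < c / 100000 by positivity)),
    eventually_ge_atTop 1] with l b3 hl
  have l1 : (1 : ℝ) ≤ l := by exact_mod_cast hl
  have q1 : (1 : ℝ) ≤ ((46 / 25) ^ 2) ^ l := one_le_pow₀ (by norm_num)
  have e2 : ((46 / 25 : ℝ)) ^ (2 * l + 4) = ((46 / 25) ^ 2) ^ l * (46 / 25) ^ 4 := by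
    rw [pow_add, pow_mul]
  rw [mul_pow] at b3
  have b6 : (46 / 25 : ℝ) ^ (2 * l + 4) + 2 ≤ 14 * ((46 / 25) ^ 2) ^ l := by
    rw [e2]
    nlinarith
  have b7 : (l + 1) * (l + 2) * m3 l ≤ 6 * l ^ 2 * (1000 * (59 / 200) ^ l) :=
    mul_le_mul_of_nonneg_right (by nlinarith) (by unfold m3; positivity)
  have m0 : 0 ≤ (l + 1) * (l + 2) * m3 l := by
    unfold m3
    positivity
  have p0 : (0 : ℝ) ≤ l ^ 2 * (((46 / 25) ^ 2) ^ l * (59 / 200) ^ l) := by positivity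
  refine (mul_le_mul b6 b7 m0 (by positivity)).trans_lt ?_
  nlinarith

end Pool.Agent.MP_66cee2_co.B67
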