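import Pool.Agent.MP_66cee2_co.B67.Spec
import Pool.Agent.MP_66cee2_co.B82.Dens2

/-
The mean of the volume in a ball.
-/

namespace Pool.Agent.MP_66cee2_co.B67

open MeasureTheory Set Filter Metric Topology Pool.Agent.MP_66cee2_co.X
  Pool.Agent.MP_66cee2_co.B82.Dens2x

theorem sMass : SMass := by
  intro d Y t hY hb
  have hYf : volume Y < ⊤ := hb.measure_lt_top
  set w := volume.real (ball (0 : E d) t) with hw
  set f : E d → ℝ := fun z => volume.real (Y ∩ ball z t) with hf
  have hfm : Measurable f := (measF hY t).ennreal_toReal
  have hf0 : ∀ z, 0 ≤ f z := fun z => measureReal_nonneg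
  have hfw : ∀ z, f z ≤ w := fun z => by
    have : volume.real (ball z t) = w := by
      simp only [hw, Measure.real, Measure.addHaar_ball_center volume z t]
    rw [← this]
    exact measureReal_mono inter_subset_right measure_ball_lt_top.ne
  have hfi : Integrable f := by
    refine integrable_toReal_of_lintegral_ne_top (measF hY t).aemeasurable ?_
    rw [lint hY t]
    exact (ENNReal.mul_lt_top measure_ball_lt_top hYf).ne
  have hf2 : Integrable fun z => f z ^ 2 := by
    refine (hfi.const_mul w).mono' (hfm.pow_const 2).aestronglyMeasurable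
      (Eventually.of_forall fun z => ?_)
    rw [Real.norm_of_nonneg (sq_nonneg _), sq]
    exact mul_le_mul_of_nonneg_right (hfw z) (hf0 z)
  refine ⟨hfi, hf2, ?_⟩
  have h := integral_toReal (μ := (volume : Measure (E d))) (measF hY t).aemeasurable
    (Eventually.of_forall fun z =>
      (measure_mono inter_subset_right).trans_lt (measure_ball_lt_top (x := z) (r := t)))
  rw [lint hY t, ENNReal.toReal_mul] at h
  exact h

end Pool.Agent.MP_66cee2_co.B67
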