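import Pool.Agent.MP_66cee2_co.B67.Spec
import Pool.Agent.MP_66cee2_co.B.Psi

namespace Pool.Agent.MP_66cee2_co.B67

open MeasureTheory Set Pool.Agent.MP_66cee2_co.X Pool.Agent.MP_66cee2_co.B

theorem sSel3 : SSel3 := by
  classical
  intro d n ν _ b hb h1
  obtain ⟨pc, p0, p1, p2, -⟩ := sPsi
  have hψ1 : ∀ x y, ‖psi (‖b x - b y‖ ^ 2)‖ ≤ 1 := fun x y => by
    rw [Real.norm_eq_abs, abs_of_nonneg (p0 _)]
    exact (p1 _ (sq_nonneg _)).1
  have hψm : Measurable (Function.uncurry fun x y => psi (‖b x - b y‖ ^ 2)) :=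
    pc.measurable.comp
      (((hb.comp measurable_fst).sub (hb.comp measurable_snd)).norm.pow_const 2)
  have hi1 : ∀ x, Integrable (fun y => psi (‖b x - b y‖ ^ 2)) ν := fun x =>
    Integrable.of_bound (hψm.comp measurable_prodMk_left).aestronglyMeasurable 1
      (.of_forall (hψ1 x))
  have hi2 : Integrable (fun x => ∫ y, psi (‖b x - b y‖ ^ 2) ∂ν) ν :=
    Integrable.of_bound hψm.stronglyMeasurable.integral_prod_right.aestronglyMeasurable
      (1 * ν.real Set.univ) (.of_forall fun x => norm_integral_le_of_norm_le_const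
        (.of_forall (hψ1 x)))
  rcases (measureReal_nonneg (μ := ν) (s := univ)).eq_or_lt with hδ0 | hδ0
  · exact ⟨0, by rw [← hδ0, zero_div]; exact measureReal_nonneg⟩
  have hν : ν ≠ 0 := fun h => by rw [h] at hδ0; simp at hδ0
  obtain ⟨x₀, hx₀⟩ := exists_le_average hν hi2
  rw [average_eq, smul_eq_mul] at hx₀
  have hS : MeasurableSet {x | ‖b x - b x₀‖ ^ 2 < 3 / 2} :=
    measurableSet_lt ((hb.sub measurable_const).norm.pow_const 2) measurable_const
  refine ⟨b x₀, ?_⟩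
  obtain ⟨S, hS'⟩ : ∃ S, S = {x | ‖b x - b x₀‖ ^ 2 < 3 / 2} := ⟨_, rfl⟩
  rw [← hS'] at hS ⊢
  have hSc : 1 / 50 * ν.real Sᶜ ≤ ∫ y, psi (‖b x₀ - b y‖ ^ 2) ∂ν := by
    have h2 : ∫ y, Sᶜ.indicator (fun _ => (1 / 50 : ℝ)) y ∂ν = 1 / 50 * ν.real Sᶜ := by
      rw [integral_indicator_const _ hS.compl, smul_eq_mul, mul_comm]
    rw [← h2]
    refine integral_mono ((integrable_const _).indicator hS.compl) (hi1 x₀) fun y => ?_
    by_cases hy : y ∈ Sᶜ
    · rw [indicator_of_mem hy]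
      rw [hS'] at hy
      refine p2 _ ?_
      rw [norm_sub_rev]
      exact not_lt.1 hy
    · rw [indicator_of_notMem hy]
      exact p0 _
  have h2 : ν.real S + ν.real Sᶜ = ν.real univ := measureReal_add_measureReal_compl hS
  have h3 : (ν.real univ)⁻¹ * ∫ x, ∫ y, psi (‖b x - b y‖ ^ 2) ∂ν ∂ν ≤ ν.real univ / 200 := by
    rw [inv_mul_le_iff₀ hδ0]
    linarith
  linarith

end Pool.Agent.MP_66cee2_co.B67
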