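import Pool.Agent.MP_66cee2_co.B67.Spec

/-
The signed bound: reduction to centred labels.
-/

namespace Pool.Agent.MP_66cee2_co.B67

open MeasureTheory Set Filter Metric Topology Polynomial Pool.Agent.MP_66cee2_co.X
  Pool.Agent.MP_66cee2_co.B
open scoped RealInnerProductSpace

theorem sSig3 : SSig0 → SSig3 := by
  intro h Ω _ d n ν _ X β A τ hX hβ hA hτ hI
  by_cases h0 : ν = 0
  · subst h0
    simp [SigB]
  have hm : ν.real univ ≠ 0 := by
    rw [Measure.real, ENNReal.toReal_ne_zero]
    exact ⟨fun h1 => h0 (Measure.measure_univ_eq_zero.1 h1), measure_ne_top _ _⟩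
  obtain ⟨p, hp⟩ : ∃ p : E n, ∀ a, p a = (∫ x, β x a ∂ν) / ν.real univ :=
    ⟨WithLp.toLp 2 fun a => (∫ x, β x a ∂ν) / ν.real univ, fun _ => rfl⟩
  have hi : ∀ a, Integrable (fun x => β x a) ν := fun a => by
    have hc : Continuous fun v : E n => v a := by fun_prop
    refine Integrable.of_bound (hc.measurable.comp hβ).aestronglyMeasurable A ?_
    filter_upwards [hA] with x hx
    exact (PiLp.norm_apply_le (β x) a).trans hx.2
  have h1 := h Ω d n ν X (fun x => β x - p) (A + ‖p‖) τ hX (hβ.sub measurable_const) ?_ hτ hI ?_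
  · simpa only [SigB, sub_sub_sub_cancel_right] using h1
  · filter_upwards [hA] with x hx
    exact ⟨hx.1.trans (le_add_of_nonneg_right (norm_nonneg p)),
      (norm_sub_le _ _).trans (add_le_add hx.2 le_rfl)⟩
  · intro a
    simp only [PiLp.sub_apply]
    rw [integral_sub (hi a) (integrable_const _), integral_const, smul_eq_mul, hp,
      mul_div_cancel₀ _ hm, sub_self]

end Pool.Agent.MP_66cee2_co.B67
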