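import Pool.Agent.MP_66cee2_co.B67.Spec

/-
The marginal outside the unit interval.
-/

namespace Pool.Agent.MP_66cee2_co.B67

open MeasureTheory Set Filter Metric Topology

theorem Tailx.cont (l : ℕ) : Continuous (Fq l) := by
  unfold Fq
  fun_prop

theorem Tailx.zero (l : ℕ) {σ : ℝ} (h : cc ≤ σ) : Fq l σ = 0 := by
  unfold Fq
  rw [max_eq_right (by linarith), zero_mul]

theorem Tailx.eq (l : ℕ) {v M : ℝ} (h1 : cc ≤ M) (h2 : v ≤ M) :
    hq l v = ∫ σ in v..M, (σ - v) ^ l * Fq l σ := by
  unfold hq
  rw [intervalIntegral.integral_of_le h2]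
  refine setIntegral_eq_of_subset_of_forall_sdiff_eq_zero measurableSet_Ioi Ioc_subset_Ioi_self
    fun σ hσ => ?_
  have h3 : M < σ := by
    by_contra h
    exact hσ.2 ⟨hσ.1, not_lt.1 h⟩
  rw [Tailx.zero l (h1.trans h3.le), mul_zero]

theorem sTail : STail := by
  intro l
  have hz : ∀ v, cc ≤ v → hq l v = 0 := fun v hv => by
    rw [Tailx.eq l hv le_rfl, intervalIntegral.integral_same]
  have c1 : 0 ≤ (cc - 1) * (ro ^ 2 - cc) := by norm_num [cc, ro]
  refine ⟨?_, hz, fun v hv => ?_⟩
  · have e : hq l = fun v => -∫ σ in cc..(min v cc), (σ - v) ^ l * Fq l σ := by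
      funext v
      rcases le_total v cc with h | h
      · rw [min_eq_left h, Tailx.eq l le_rfl h, intervalIntegral.integral_symm]
      · rw [min_eq_right h, hz v h, intervalIntegral.integral_same, neg_zero]
    rw [e]
    have hc := Tailx.cont l
    exact (intervalIntegral.continuous_parametric_intervalIntegral_of_continuous
      (f := fun v σ : ℝ => (σ - v) ^ l * Fq l σ) (a₀ := cc) (by unfold Function.uncurry; fun_prop)
      (by fun_prop)).neg
  · rcases le_total cc v with h | h
    · rw [hz v h, abs_zero]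
      positivity
    rw [Tailx.eq l le_rfl h, ← Real.norm_eq_abs]
    have hb := intervalIntegral.norm_integral_le_of_norm_le_const (a := v) (b := cc)
      (f := fun σ => (σ - v) ^ l * Fq l σ) (C := 3 * ((cc - 1) * (ro ^ 2 - cc)) ^ l)
      (fun σ hσ => by
        rw [uIoc_of_le h] at hσ
        obtain ⟨s1, s2⟩ := hσ
        have r1 : ro ^ 2 = 1764 / 625 := by norm_num [ro]
        have r2 : cc = 709 / 500 := rfl
        have p1 : 0 ≤ cc - σ := by linarith
        have p2 : 0 ≤ ro ^ 2 - σ := by linarith
        have p3 : 0 ≤ σ - v := by linarith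
        have e : (σ - v) ^ l * Fq l σ =
            ((cc - σ) * (ro ^ 2 - σ)) * ((σ - v) * (ro ^ 2 - σ)) ^ l := by
          unfold Fq
          rw [max_eq_left p1, max_eq_left p2, mul_pow]
          ring
        rw [e, Real.norm_eq_abs, abs_of_nonneg (by positivity)]
        refine mul_le_mul (by nlinarith) (pow_le_pow_left₀ (by positivity) ?_ l) (by positivity)
          (by norm_num)
        have q1 : (σ - v) * (ro ^ 2 - σ) ≤ (σ - 1) * (ro ^ 2 - σ) :=
          mul_le_mul_of_nonneg_right (by linarith) p2
        nlinarith)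
    refine hb.trans (mul_le_of_le_one_right (by positivity) ?_)
    have r2 : cc = 709 / 500 := rfl
    rw [abs_le]
    constructor <;> linarith

end Pool.Agent.MP_66cee2_co.B67
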