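import Pool.Agent.MP_66cee2_co.B67.Ap3
import Pool.Agent.MP_66cee2_co.B67.Conv3
import Pool.Agent.MP_66cee2_co.B67.Core3
import Pool.Agent.MP_66cee2_co.B67.Ct3
import Pool.Agent.MP_66cee2_co.B67.Far
import Pool.Agent.MP_66cee2_co.B67.H37Sig0
import Pool.Agent.MP_66cee2_co.B67.In
import Pool.Agent.MP_66cee2_co.B67.Iso
import Pool.Agent.MP_66cee2_co.B67.Lens3
import Pool.Agent.MP_66cee2_co.B67.H52Loc
import Pool.Agent.MP_66cee2_co.B67.Mass
import Pool.Agent.MP_66cee2_co.B67.NoCov3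
import Pool.Agent.MP_66cee2_co.B67.Sel3
import Pool.Agent.MP_66cee2_co.B67.Sig3
import Pool.Agent.MP_66cee2_co.B67.Tail
import Pool.Agent.MP_66cee2_co.B82.All

/-
Explicit base with the cut ball kernel: the theorem.
-/

namespace Pool.Agent.MP_66cee2_co.B67

theorem sBase3 : SBase3 :=
  base3_of D.sJ3 (B.sCov B.sLevB B.sSgn B.sNoP) D.sTrAll XT.rowODD
    (sNoCov3 Ct3x.ct3 sLens3 (sAp3 sIn sTail) sNum3 B82.sFB2
      (sConv3 (H52.sLoc3 sIso (sCore3 (sSig3 sSig0')) sFar sSel3) sMass) B82.sDens2)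

end Pool.Agent.MP_66cee2_co.B67
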