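import Pool.Agent.MP_66cee2_co.B67.Spec
import Pool.Agent.MP_66cee2_co.B82.Ap

/-
Polynomial approximation of the marginal of the cut kernel.
-/

namespace Pool.Agent.MP_66cee2_co.B67

open MeasureTheory Set Polynomial Pool.Agent.MP_66cee2_co.B

namespace Ap3x

theorem term (l j : ℕ) (a A b Q : ℝ) (ha : |a| * 4 ^ l ≤ A) (hb : 0 ≤ b)
    (hQ : b ^ 2 / (19 / 2) / 4 ≤ Q) :
    |a| * (2 * ((19 / 2 : ℝ) ^ l)⁻¹ * b ^ (2 * l + j)) ≤ A * (2 * b ^ j * Q ^ l) := by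
  have h1 : (b ^ 2 / (19 / 2) / 4) ^ l ≤ Q ^ l := pow_le_pow_left₀ (by positivity) hQ l
  have e : |a| * (2 * ((19 / 2 : ℝ) ^ l)⁻¹ * b ^ (2 * l + j)) =
      |a| * 4 ^ l * (2 * b ^ j * (b ^ 2 / (19 / 2) / 4) ^ l) := by
    rw [div_pow _ (4 : ℝ), div_pow (b ^ 2), ← pow_mul, pow_add]
    field_simp
  rw [e]
  exact mul_le_mul ha (mul_le_mul_of_nonneg_left h1 (by positivity)) (by positivity)
    (le_trans (by positivity) ha)

theorem tail (f : ℝ → ℝ) (C k s t : ℝ) (hst : t = s + 1) (hf : ∀ v, 1 ≤ v → |f v| ≤ C)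
    (h : ∀ u, s < u → u ≤ t → 1 ≤ u ^ 2) :
    |∫ u in s..t, Real.cos (k * u) * f (u ^ 2)| ≤ C := by
  have := intervalIntegral.norm_integral_le_of_norm_le_const (a := s) (b := t)
    (C := C) (f := fun u => Real.cos (k * u) * f (u ^ 2)) fun u hu => by
      rw [uIoc_of_le (by linarith)] at hu
      rw [Real.norm_eq_abs, abs_mul]
      exact (mul_le_of_le_one_left (abs_nonneg _) (Real.abs_cos_le_one _)).trans
        (hf _ (h u hu.1 hu.2))
  rw [Real.norm_eq_abs, hst, add_sub_cancel_left, abs_one, mul_one] at this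
  rwa [hst]

end Ap3x

theorem sAp3 : SIn → STail → SAp3 := by
  intro hI hT l
  obtain ⟨a, b, p, ha, hb, hp, hin⟩ := hI l
  obtain ⟨tc, t0, t1⟩ := hT l
  have q1 : 0 ≤ ro ^ 2 - 1 / 2 := by rw [ro]; norm_num
  obtain ⟨r₁, d1, e1⟩ := B82.ApA.approxPow l (2 * l + 2) (ro ^ 2 - 1 / 2) (19 / 2) q1 (by norm_num)
  obtain ⟨r₂, d2, e2⟩ := B82.ApA.approxPow l (2 * l + 3) (ro ^ 2 - 1 / 2) (19 / 2) q1 (by norm_num)
  obtain ⟨β, hβ⟩ : ∃ β : ℝ, β = (19 / 2 + (19 / 2)⁻¹) / 4 + (ro ^ 2 - 1 / 2) := ⟨_, rfl⟩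
  obtain ⟨Q, hQ⟩ : ∃ Q : ℝ, Q = ro ^ 4 / 4 * (59 / 200) := ⟨_, rfl⟩
  rw [← hβ] at e1 e2
  have β0 : 0 ≤ β := by rw [hβ, ro]; norm_num
  have βQ : β ^ 2 / (19 / 2) / 4 ≤ Q := by rw [hβ, hQ, ro]; norm_num
  have Q0 : 0 ≤ Q ^ l := by rw [hQ]; positivity
  have n1 := Ap3x.term l 2 a 2 β Q ha β0 βQ
  have n2 := Ap3x.term l 3 b 1 β Q hb β0 βQ
  have n3 : ((cc - 1) * (ro ^ 2 - cc)) ^ l ≤ Q ^ l :=
    pow_le_pow_left₀ (by rw [cc, ro]; norm_num) (by rw [hQ, cc, ro]; norm_num) l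
  have n4 : (8 * β ^ 2 + 4 * β ^ 3 + 6) * Q ^ l ≤ 1000 * Q ^ l :=
    mul_le_mul_of_nonneg_right (by rw [hβ, ro]; norm_num) Q0
  have n5 : (ro ^ 4 / 4) ^ l * m3 l = 1000 * Q ^ l := by
    rw [m3, hQ, mul_pow]
    ring
  obtain ⟨r, hr⟩ : ∃ r : ℝ[X], r = C a * r₁ + C b * r₂ + p := ⟨_, rfl⟩
  have dr : r.natDegree ≤ l := by
    rw [hr]
    exact natDegree_add_le_of_degree_le (natDegree_add_le_of_degree_le
      ((natDegree_C_mul_le _ _).trans d1) ((natDegree_C_mul_le _ _).trans d2)) hp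
  have he : ∀ v : ℝ, 0 ≤ v → v ≤ 1 →
      |hq l v - r.eval v| ≤ (4 * β ^ 2 + 2 * β ^ 3) * Q ^ l := fun v v0 v1 => by
    have f1 := e1 v v0 v1
    have f2 := e2 v v0 v1
    rw [sub_add_cancel] at f1 f2
    have f3 : hq l v - r.eval v = a * ((ro ^ 2 - v) ^ (2 * l + 2) - r₁.eval v) +
        b * ((ro ^ 2 - v) ^ (2 * l + 3) - r₂.eval v) := by
      rw [hin v v1, hr]
      simp only [eval_add, eval_mul, eval_C]
      ring
    rw [f3]
    refine (abs_add_le _ _).trans ?_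
    rw [abs_mul, abs_mul]
    have g1 := (mul_le_mul_of_nonneg_left f1 (abs_nonneg a)).trans n1
    have g2 := (mul_le_mul_of_nonneg_left f2 (abs_nonneg b)).trans n2
    linarith
  refine ⟨r, dr, fun k => ?_⟩
  have c1 : Continuous fun u : ℝ => Real.cos (k * u) * r.eval (u ^ 2) := by fun_prop
  have c2 : Continuous fun u : ℝ => Real.cos (k * u) * hq l (u ^ 2) := by fun_prop
  have h2 : |(∫ u in (-1 : ℝ)..1, Real.cos (k * u) * r.eval (u ^ 2)) -
      ∫ u in (-1 : ℝ)..1, Real.cos (k * u) * hq l (u ^ 2)| ≤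
        2 * ((4 * β ^ 2 + 2 * β ^ 3) * Q ^ l) := by
    rw [← intervalIntegral.integral_sub (c1.intervalIntegrable _ _) (c2.intervalIntegrable _ _)]
    have := intervalIntegral.norm_integral_le_of_norm_le_const (a := (-1 : ℝ)) (b := 1)
      (C := (4 * β ^ 2 + 2 * β ^ 3) * Q ^ l)
      (f := fun u => Real.cos (k * u) * r.eval (u ^ 2) - Real.cos (k * u) * hq l (u ^ 2))
      fun u hu => by
        rw [uIoc_of_le (by norm_num)] at hu
        have u1 : u ^ 2 ≤ 1 := by nlinarith [hu.1, hu.2]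
        rw [← mul_sub, Real.norm_eq_abs, abs_mul, abs_sub_comm]
        exact (mul_le_of_le_one_left (abs_nonneg _) (Real.abs_cos_le_one _)).trans
          (he (u ^ 2) (sq_nonneg u) u1)
    rw [Real.norm_eq_abs, show |(1 : ℝ) - -1| = 2 by norm_num] at this
    linarith
  have g1 : Phi (r.comp (X ^ 2)) k = ∫ u in (-1 : ℝ)..1, Real.cos (k * u) * r.eval (u ^ 2) := by
    simp only [Phi, eval_comp, eval_pow, eval_X]
  have g2 : ∫ u in (-2 : ℝ)..2, Real.cos (k * u) * hq l (u ^ 2) =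
      ∫ u : ℝ, Real.cos (k * u) * hq l (u ^ 2) := by
    refine intervalIntegral.integral_eq_integral_of_support_subset fun u hu => ?_
    have h0 : u ^ 2 < 4 := by
      by_contra h
      apply hu
      show Real.cos (k * u) * hq l (u ^ 2) = 0
      rw [t0 _ (le_trans (by rw [cc]; norm_num) (not_lt.1 h)), mul_zero]
    constructor <;> nlinarith
  have s1 := Ap3x.tail (hq l) _ k (-2) (-1) (by norm_num) t1 fun u _ h => by nlinarith
  have s2 := Ap3x.tail (hq l) _ k 1 2 (by norm_num) t1 fun u h _ => by nlinarith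
  rw [n5, g1, ← g2, ← intervalIntegral.integral_add_adjacent_intervals (b := -1)
    (c2.intervalIntegrable _ _) (c2.intervalIntegrable _ _),
    ← intervalIntegral.integral_add_adjacent_intervals (a := -1) (b := 1) (c := 2)
    (c2.intervalIntegrable _ _) (c2.intervalIntegrable _ _)]
  rw [abs_le] at h2 s1 s2 ⊢
  constructor <;> linarith [h2.1, h2.2, s1.1, s1.2, s2.1, s2.2]

end Pool.Agent.MP_66cee2_co.B67
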