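import Pool.Agent.MP_66cee2_co.B67.Spec

/-
Row Tail: the marginal outside the unit interval.
-/

namespace Pool.Agent.MP_66cee2_co.B67.H11

open MeasureTheory Set Filter Metric Topology

theorem Fq0 (l : ℕ) {σ : ℝ} (h : cc ≤ σ) : Fq l σ = 0 := by
  unfold Fq
  rw [max_eq_right (by linarith), zero_mul]

theorem hq0 (l : ℕ) {v : ℝ} (h : cc ≤ v) : hq l v = 0 :=
  setIntegral_eq_zero_of_forall_eq_zero fun σ hσ => by
    rw [Fq0 l (h.trans (le_of_lt hσ)), mul_zero]

theorem hq_eq (l : ℕ) (v : ℝ) : hq l v = ∫ σ in v..cc, (σ - v) ^ l * Fq l σ := by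
  rcases le_total v cc with h | h
  · rw [intervalIntegral.integral_of_le h]
    exact setIntegral_eq_of_subset_of_forall_sdiff_eq_zero measurableSet_Ioi Ioc_subset_Ioi_self
      fun σ hσ => by
        have h1 : cc ≤ σ := by
          by_contra hn
          exact hσ.2 ⟨hσ.1, (not_le.1 hn).le⟩
        rw [Fq0 l h1, mul_zero]
  · rw [hq0 l h, intervalIntegral.integral_symm, intervalIntegral.integral_of_le h,
      setIntegral_eq_zero_of_forall_eq_zero fun σ hσ => by rw [Fq0 l hσ.1.le, mul_zero], neg_zero]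

theorem sTail : STail := by
  intro l
  refine ⟨?_, fun v hv => hq0 l hv, fun v hv => ?_⟩
  · have e : hq l = fun v => -∫ σ in cc..v, (σ - v) ^ l * Fq l σ := by
      funext v
      rw [hq_eq, intervalIntegral.integral_symm]
    rw [e]
    refine (intervalIntegral.continuous_parametric_intervalIntegral_of_continuous
      (f := fun v σ : ℝ => (σ - v) ^ l * Fq l σ) ?_ continuous_id).neg
    unfold Fq
    fun_prop
  · have c1 : cc = 709 / 500 := rfl
    have c2 : ro ^ 2 = 1764 / 625 := by
      unfold ro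
      norm_num
    have K0 : 0 ≤ (cc - 1) * (ro ^ 2 - cc) := by
      rw [c1, c2]
      norm_num
    rcases le_total v cc with h | h
    · rw [hq_eq, ← Real.norm_eq_abs]
      refine (intervalIntegral.norm_integral_le_of_norm_le_const
        (C := 3 * ((cc - 1) * (ro ^ 2 - cc)) ^ l) fun σ hσ => ?_).trans ?_
      · rw [uIoc_of_le h] at hσ
        have a1 : 0 ≤ σ - v := by linarith [hσ.1]
        have a2 : 0 ≤ cc - σ := by linarith [hσ.2]
        have a3 : 0 ≤ ro ^ 2 - σ := by linarith [hσ.2]
        have a4 : (σ - v) * (ro ^ 2 - σ) ≤ (cc - 1) * (ro ^ 2 - cc) := by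
          have b1 : (σ - v) * (ro ^ 2 - σ) ≤ (σ - 1) * (ro ^ 2 - σ) :=
            mul_le_mul_of_nonneg_right (by linarith) a3
          have b2 : 0 ≤ (cc - σ) * (ro ^ 2 + 1 - cc - σ) := mul_nonneg a2 (by linarith [hσ.2])
          nlinarith
        have a5 := pow_le_pow_left₀ (mul_nonneg a1 a3) a4 l
        have a6 : (cc - σ) * (ro ^ 2 - σ) ≤ 3 := by nlinarith [hσ.1]
        unfold Fq
        rw [max_eq_left a2, max_eq_left a3, Real.norm_eq_abs, abs_of_nonneg (by positivity)]
        calc (σ - v) ^ l * ((cc - σ) * (ro ^ 2 - σ) ^ (l + 1))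
            = (cc - σ) * (ro ^ 2 - σ) * ((σ - v) * (ro ^ 2 - σ)) ^ l := by
              rw [mul_pow]
              ring
          _ ≤ _ := mul_le_mul a6 a5 (by positivity) (by norm_num)
      · refine mul_le_of_le_one_right (by positivity) ?_
        rw [abs_of_nonneg (by linarith)]
        linarith
    · rw [hq0 l h, abs_zero]
      positivity

end Pool.Agent.MP_66cee2_co.B67.H11
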