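import Pool.Agent.MP_66cee2_co.B67.Spec

/-
Row In: the marginal on the unit interval.
-/

namespace Pool.Agent.MP_66cee2_co.B67.H71

open MeasureTheory Set Polynomial

/-- the beta integral. -/
noncomputable def be (l k : ℕ) : ℝ := ∫ x in (0 : ℝ)..1, x ^ l * (1 - x) ^ k

theorem be_le (l k : ℕ) : |be l (l + k)| * 4 ^ l ≤ 1 := by
  have h : ‖be l (l + k)‖ ≤ (1 / 4) ^ l * |(1 : ℝ) - 0| := by
    refine intervalIntegral.norm_integral_le_of_norm_le_const fun x hx => ?_
    rw [uIoc_of_le zero_le_one] at hx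
    have h0 : 0 ≤ x := hx.1.le
    have h1 : 0 ≤ 1 - x := by linarith [hx.2]
    rw [Real.norm_of_nonneg (by positivity), pow_add, ← mul_assoc, ← mul_pow]
    have h2 : (x * (1 - x)) ^ l ≤ (1 / 4) ^ l :=
      pow_le_pow_left₀ (by positivity) (by nlinarith [sq_nonneg (x - 1 / 2)]) l
    have h3 : (1 - x) ^ k ≤ 1 := pow_le_one₀ h1 (by linarith)
    calc (x * (1 - x)) ^ l * (1 - x) ^ k ≤ (1 / 4) ^ l * 1 :=
          mul_le_mul h2 h3 (by positivity) (by positivity)
      _ = (1 / 4) ^ l := mul_one _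
  rw [Real.norm_eq_abs, sub_zero, abs_one, mul_one] at h
  calc |be l (l + k)| * 4 ^ l ≤ (1 / 4) ^ l * 4 ^ l := by gcongr
    _ = 1 := by rw [← mul_pow]; norm_num

theorem sub_be (l k : ℕ) (v M : ℝ) :
    ∫ σ in v..M, (σ - v) ^ l * (M - σ) ^ k = be l k * (M - v) ^ (l + k + 1) := by
  have h := intervalIntegral.smul_integral_comp_mul_add (a := 0) (b := 1)
    (fun σ => (σ - v) ^ l * (M - σ) ^ k) (M - v) v
  rw [mul_zero, zero_add, mul_one, sub_add_cancel] at h
  have e : ∀ x : ℝ, ((M - v) * x + v - v) ^ l * (M - ((M - v) * x + v)) ^ k =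
      (M - v) ^ (l + k) * (x ^ l * (1 - x) ^ k) := fun x => by
    rw [add_sub_cancel_right, show M - ((M - v) * x + v) = (M - v) * (1 - x) by ring, mul_pow,
      mul_pow]
    ring
  rw [← h]
  simp only [e]
  rw [intervalIntegral.integral_const_mul, smul_eq_mul, be]
  ring

theorem poly (l : ℕ) (G : ℝ → ℝ) (hG : Continuous G) (c M : ℝ) :
    ∃ p : ℝ[X], p.natDegree ≤ l ∧ ∀ v, ∫ σ in c..M, (σ - v) ^ l * G σ = p.eval v := by
  refine ⟨∑ m ∈ Finset.range (l + 1),
    C ((l.choose m : ℝ) * ∫ σ in c..M, σ ^ m * G σ) * (-X) ^ (l - m), ?_, fun v => ?_⟩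
  · refine natDegree_sum_le_of_forall_le _ _ fun m _ => (natDegree_C_mul_le _ _).trans ?_
    refine natDegree_pow_le.trans ?_
    rw [natDegree_neg, natDegree_X, mul_one]
    omega
  · have e : ∀ σ : ℝ, (σ - v) ^ l * G σ = ∑ m ∈ Finset.range (l + 1),
        ((l.choose m : ℝ) * (-v) ^ (l - m)) * (σ ^ m * G σ) := fun σ => by
      rw [sub_eq_add_neg, add_pow, Finset.sum_mul]
      exact Finset.sum_congr rfl fun m _ => by ring
    simp only [e]
    rw [intervalIntegral.integral_finsetSum fun m _ =>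
      Continuous.intervalIntegrable (by fun_prop) _ _, eval_finsetSum]
    refine Finset.sum_congr rfl fun m _ => ?_
    rw [intervalIntegral.integral_const_mul, eval_mul, eval_C, eval_pow, eval_neg, eval_X]
    ring

theorem sIn : SIn := by
  intro l
  have c1 : (1 : ℝ) ≤ cc := by norm_num [cc]
  have c2 : cc ≤ ro ^ 2 := by norm_num [cc, ro]
  have c3 : ro ^ 2 - cc ≤ 2 := by norm_num [cc, ro]
  obtain ⟨p, p1, p2⟩ :=
    poly l (fun σ => (cc - σ) * (ro ^ 2 - σ) ^ (l + 1)) (by fun_prop) cc (ro ^ 2)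
  refine ⟨(cc - ro ^ 2) * be l (l + 1), be l (l + 2), -p, ?_, be_le l 2, by rwa [natDegree_neg],
    fun v hv => ?_⟩
  · rw [abs_mul, mul_assoc, abs_sub_comm, abs_of_nonneg (sub_nonneg.2 c2)]
    calc (ro ^ 2 - cc) * (|be l (l + 1)| * 4 ^ l) ≤ 2 * 1 :=
          mul_le_mul c3 (be_le l 1) (by positivity) zero_le_two
      _ = 2 := mul_one _
  have hv' : v ≤ cc := hv.trans c1
  have h1 : hq l v = ∫ σ in v..cc, (σ - v) ^ l * ((cc - σ) * (ro ^ 2 - σ) ^ (l + 1)) := by
    rw [hq, intervalIntegral.integral_of_le hv',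
      setIntegral_eq_of_subset_of_forall_sdiff_eq_zero (s := Ioc v cc) measurableSet_Ioi
        Ioc_subset_Ioi_self fun σ hσ => ?_]
    · refine setIntegral_congr_fun measurableSet_Ioc fun σ hσ => ?_
      simp only [Fq]
      rw [max_eq_left (sub_nonneg.2 hσ.2), max_eq_left (sub_nonneg.2 (hσ.2.trans c2))]
    · have : cc ≤ σ := by
        by_contra h
        exact hσ.2 ⟨hσ.1, (not_le.1 h).le⟩
      rw [Fq, max_eq_right (sub_nonpos.2 this), zero_mul, mul_zero]
  have h2 := intervalIntegral.integral_add_adjacent_intervals (μ := volume)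
    (f := fun σ => (σ - v) ^ l * ((cc - σ) * (ro ^ 2 - σ) ^ (l + 1))) (a := v) (b := cc)
    (c := ro ^ 2) (Continuous.intervalIntegrable (by fun_prop) _ _)
    (Continuous.intervalIntegrable (by fun_prop) _ _)
  have e : ∀ σ : ℝ, (σ - v) ^ l * ((cc - σ) * (ro ^ 2 - σ) ^ (l + 1)) =
      (cc - ro ^ 2) * ((σ - v) ^ l * (ro ^ 2 - σ) ^ (l + 1)) +
        (σ - v) ^ l * (ro ^ 2 - σ) ^ (l + 2) := fun σ => by ring
  have h3 : ∫ σ in v..ro ^ 2, (σ - v) ^ l * ((cc - σ) * (ro ^ 2 - σ) ^ (l + 1)) =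
      (cc - ro ^ 2) * (be l (l + 1) * (ro ^ 2 - v) ^ (l + (l + 1) + 1)) +
        be l (l + 2) * (ro ^ 2 - v) ^ (l + (l + 2) + 1) := by
    simp only [e]
    rw [intervalIntegral.integral_add (Continuous.intervalIntegrable (by fun_prop) _ _)
      (Continuous.intervalIntegrable (by fun_prop) _ _), intervalIntegral.integral_const_mul,
      sub_be, sub_be]
  rw [h3, ← h1, p2 v, show l + (l + 1) + 1 = 2 * l + 2 by ring,
    show l + (l + 2) + 1 = 2 * l + 3 by ring] at h2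
  rw [eval_neg]
  linarith

end Pool.Agent.MP_66cee2_co.B67.H71
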