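import Pool.Agent.MP_66cee2_co.B67.Spec

/-
The signed bound for centred labels.
-/

namespace Pool.Agent.MP_66cee2_co.B67.H74

open MeasureTheory Set Filter Pool.Agent.MP_66cee2_co.X
open scoped RealInnerProductSpace

variable {Ω : Type} [MeasurableSpace Ω] {ν : Measure Ω}

/-- measurable and bounded almost everywhere. -/
def Bd (ν : Measure Ω) (f : Ω → ℝ) : Prop := Measurable f ∧ ∃ C, ∀ᵐ x ∂ν, |f x| ≤ C

theorem Bd.int [IsFiniteMeasure ν] {f : Ω → ℝ} (h : Bd ν f) : Integrable f ν := by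
  obtain ⟨h1, C, h2⟩ := h
  exact Integrable.of_bound h1.aestronglyMeasurable C h2

theorem Bd.const (c : ℝ) : Bd ν fun _ => c :=
  ⟨measurable_const, |c|, Eventually.of_forall fun _ => le_rfl⟩

theorem Bd.add {f g : Ω → ℝ} (h : Bd ν f) (h' : Bd ν g) : Bd ν fun x => f x + g x := by
  obtain ⟨h1, C, h2⟩ := h
  obtain ⟨h3, D, h4⟩ := h'
  refine ⟨h1.add h3, C + D, ?_⟩
  filter_upwards [h2, h4] with x a b using (abs_add_le _ _).trans (add_le_add a b)

theorem Bd.mul {f g : Ω → ℝ} (h : Bd ν f) (h' : Bd ν g) : Bd ν fun x => f x * g x := by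
  obtain ⟨h1, C, h2⟩ := h
  obtain ⟨h3, D, h4⟩ := h'
  refine ⟨h1.mul h3, C * D, ?_⟩
  filter_upwards [h2, h4] with x a b
  rw [abs_mul]
  exact mul_le_mul a b (abs_nonneg _) ((abs_nonneg _).trans a)

theorem Bd.sq {f : Ω → ℝ} (h : Bd ν f) : Bd ν fun x => f x ^ 2 := by
  simpa only [pow_two] using h.mul h

theorem Bd.sub {f g : Ω → ℝ} (h : Bd ν f) (h' : Bd ν g) : Bd ν fun x => f x - g x := by
  simpa only [sub_eq_add_neg, neg_one_mul] using h.add ((Bd.const (-1)).mul h')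

theorem Bd.sum {ι : Type} [Fintype ι] {f : ι → Ω → ℝ} (h : ∀ i, Bd ν (f i)) :
    Bd ν fun x => ∑ i, f i x := by
  classical
  have : ∀ s : Finset ι, Bd ν fun x => ∑ i ∈ s, f i x := fun s => by
    induction s using Finset.induction_on with
    | empty => simpa using Bd.const 0
    | insert a s ha ih => simpa only [Finset.sum_insert ha] using (h a).add ih
  exact this _

theorem Bd.fst [SFinite ν] {f : Ω → ℝ} (h : Bd ν f) : Bd (ν.prod ν) fun p => f p.1 := by
  obtain ⟨h1, C, h2⟩ := h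
  exact ⟨h1.comp measurable_fst, C, Measure.quasiMeasurePreserving_fst.ae h2⟩

theorem Bd.snd [SFinite ν] {f : Ω → ℝ} (h : Bd ν f) : Bd (ν.prod ν) fun p => f p.2 := by
  obtain ⟨h1, C, h2⟩ := h
  exact ⟨h1.comp measurable_snd, C, Measure.quasiMeasurePreserving_snd.ae h2⟩

theorem bd_coord {d : ℕ} {X : Ω → E d} {A : ℝ} (hX : Measurable X) (h : ∀ᵐ x ∂ν, ‖X x‖ ≤ A)
    (i : Fin d) : Bd ν fun x => X x i :=
  ⟨(EuclideanSpace.proj i : E d →L[ℝ] ℝ).continuous.measurable.comp hX, A,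
    h.mono fun x hx => (PiLp.norm_apply_le (X x) i).trans hx⟩

theorem inner_sum {d : ℕ} (x y : E d) : ⟪x, y⟫ = ∑ i, x i * y i := by
  simp [PiLp.inner_apply, mul_comm]

theorem prod_sum [IsFiniteMeasure ν] {ι : Type} [Fintype ι] {f g : ι → Ω → ℝ}
    (hf : ∀ i, Bd ν (f i)) (hg : ∀ i, Bd ν (g i)) :
    ∫ p, ∑ i, f i p.1 * g i p.2 ∂ν.prod ν = ∑ i, (∫ x, f i x ∂ν) * ∫ x, g i x ∂ν := by
  rw [integral_finsetSum _ fun i _ => ((hf i).fst.mul (hg i).snd).int]
  exact Finset.sum_congr rfl fun i _ => integral_prod_mul _ _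

theorem psd [IsFiniteMeasure ν] {ι : Type} [Fintype ι] {f : ι → Ω → ℝ} (hf : ∀ i, Bd ν (f i)) :
    0 ≤ ∫ p, ∑ i, f i p.1 * f i p.2 ∂ν.prod ν := by
  rw [prod_sum hf hf]
  exact Finset.sum_nonneg fun i _ => mul_self_nonneg _

theorem pt {c u a b k : ℝ} (hk : 0 < k) :
    c * u ^ 2 + 2 * (c * (a * b)) - (3 / (2 * k) * (c ^ 2 * a ^ 2) + 3 / (2 * k) * (c ^ 2 * b ^ 2) +
      k / 2 * a ^ 2 + k / 2 * b ^ 2 + 2 * k * u ^ 2) ≤ c * (u - a - b) ^ 2 := by
  rw [← sub_nonneg]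
  have : c * (u - a - b) ^ 2 - (c * u ^ 2 + 2 * (c * (a * b)) -
      (3 / (2 * k) * (c ^ 2 * a ^ 2) + 3 / (2 * k) * (c ^ 2 * b ^ 2) +
      k / 2 * a ^ 2 + k / 2 * b ^ 2 + 2 * k * u ^ 2)) =
      ((c + k) ^ 2 * (a ^ 2 + b ^ 2) / 2 + (k * u - c * a) ^ 2 + (k * u - c * b) ^ 2) / k := by
    field_simp
    ring
  rw [this]
  positivity

theorem sSig0 : SSq → SSig0 := by
  intro _ Ω _ d n ν _ X β A τ mX mβ hA τ0 hτ hc
  have bX := bd_coord mX (hA.mono fun _ h => h.1)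
  have bβ := bd_coord mβ (hA.mono fun _ h => h.2)
  obtain ⟨al, hal⟩ : ∃ al : Ω → ℝ, al = fun x => ∑ a, β x a * β x a - 1 / 2 := ⟨_, rfl⟩
  obtain ⟨c, hcc⟩ : ∃ c : Ω × Ω → ℝ, c = fun p => ∑ i, X p.1 i * X p.2 i := ⟨_, rfl⟩
  obtain ⟨u, hu⟩ : ∃ u : Ω × Ω → ℝ, u = fun p => ∑ a, 2 * β p.1 a * β p.2 a := ⟨_, rfl⟩
  have ba : Bd ν al := hal ▸ (Bd.sum fun a => (bβ a).mul (bβ a)).sub (Bd.const _)
  have bc : Bd (ν.prod ν) c := hcc ▸ Bd.sum fun i => (bX i).fst.mul (bX i).snd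
  have bu : Bd (ν.prod ν) u := hu ▸ Bd.sum fun a => ((Bd.const 2).mul (bβ a).fst).mul (bβ a).snd
  have e1 : ∀ x y, ⟪X x, X y⟫ = c (x, y) := fun x y => by rw [hcc, inner_sum]
  have e2 : ∀ x y, 1 - ‖β x - β y‖ ^ 2 = u (x, y) - al x - al y := fun x y => by
    rw [norm_sub_sq_real, ← real_inner_self_eq_norm_sq, ← real_inner_self_eq_norm_sq, hu, hal]
    simp only [inner_sum, mul_assoc, ← Finset.mul_sum]
    ring
  have bs := ((bu.sub ba.fst).sub ba.snd).sq
  unfold SigB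
  simp only [e1, e2] at hτ ⊢
  rw [← integral_prod _ bs.int, ← integral_prod _ (bc.mul bs).int]
  obtain ⟨J, hJ⟩ : ∃ J, J = ∫ p, al p.1 ^ 2 ∂ν.prod ν := ⟨_, rfl⟩
  have J0 : 0 ≤ J := hJ ▸ integral_nonneg fun _ => sq_nonneg _
  have U0 : 0 ≤ ∫ p, u p ^ 2 ∂ν.prod ν := integral_nonneg fun _ => sq_nonneg _
  have j2 : ∫ p, al p.2 ^ 2 ∂ν.prod ν = J := by
    rw [hJ]; exact integral_prod_swap (fun p : Ω × Ω => al p.1 ^ 2)
  have k1 : ∫ p, c p ^ 2 * al p.1 ^ 2 ∂ν.prod ν ≤ τ ^ 2 * J := by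
    have i1 := (bc.sq.mul ba.fst.sq).int
    rw [hJ, integral_prod _ i1, integral_prod _ ba.fst.sq.int, ← integral_const_mul]
    refine integral_mono_ae i1.integral_prod_left
      (ba.fst.sq.int.integral_prod_left.const_mul _) (hτ.mono fun x hx => ?_)
    simp only [integral_mul_const, integral_const, smul_eq_mul]
    rw [← mul_assoc]
    exact mul_le_mul_of_nonneg_right hx (sq_nonneg _)
  have k2 : ∫ p, c p ^ 2 * al p.2 ^ 2 ∂ν.prod ν ≤ τ ^ 2 * J := by
    refine le_of_eq_of_le ?_ k1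
    rw [← integral_prod_swap (fun p : Ω × Ω => c p ^ 2 * al p.1 ^ 2)]
    refine integral_congr_ae (Eventually.of_forall fun p => ?_)
    have : c p.swap = c p := by
      rw [hcc]; exact Finset.sum_congr rfl fun i _ => mul_comm _ _
    simp only [this, Prod.fst_swap]
  have p1 : 0 ≤ ∫ p, c p * u p ^ 2 ∂ν.prod ν := by
    refine (psd (ι := Fin d × Fin n × Fin n) (f := fun i x => 2 * X x i.1 * β x i.2.1 * β x i.2.2)
      fun i => (((Bd.const 2).mul (bX _)).mul (bβ _)).mul (bβ _)).trans_eq ?_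
    refine integral_congr_ae (Eventually.of_forall fun p => ?_)
    simp only [hcc, hu, pow_two, Fintype.sum_prod_type]
    rw [Finset.sum_mul_sum, Finset.sum_mul]
    refine Finset.sum_congr rfl fun i _ => ?_
    rw [Finset.mul_sum]
    refine Finset.sum_congr rfl fun a _ => ?_
    rw [Finset.mul_sum]
    exact Finset.sum_congr rfl fun b _ => by ring
  have p2 : 0 ≤ ∫ p, c p * (al p.1 * al p.2) ∂ν.prod ν := by
    refine (psd (f := fun i x => X x i * al x) fun i => (bX i).mul ba).trans_eq ?_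
    refine integral_congr_ae (Eventually.of_forall fun p => ?_)
    simp only [hcc, Finset.sum_mul]
    exact Finset.sum_congr rfl fun i _ => by ring
  have p3 : 0 ≤ ∫ p, al p.1 * al p.2 ∂ν.prod ν := by
    rw [integral_prod_mul]; exact mul_self_nonneg _
  have z1 : ∫ p, u p * al p.1 ∂ν.prod ν = 0 := by
    have := prod_sum (f := fun a x => 2 * β x a * al x) (g := fun a x => β x a)
      (fun a => ((Bd.const 2).mul (bβ a)).mul ba) bβ
    simp only [hc, mul_zero, Finset.sum_const_zero] at this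
    rw [← this]
    refine integral_congr_ae (Eventually.of_forall fun p => ?_)
    simp only [hu, Finset.sum_mul]
    exact Finset.sum_congr rfl fun i _ => by ring
  have z2 : ∫ p, u p * al p.2 ∂ν.prod ν = 0 := by
    have := prod_sum (g := fun a x => 2 * β x a * al x) (f := fun a x => β x a)
      bβ (fun a => ((Bd.const 2).mul (bβ a)).mul ba)
    simp only [hc, zero_mul, Finset.sum_const_zero] at this
    rw [← this]
    refine integral_congr_ae (Eventually.of_forall fun p => ?_)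
    simp only [hu, Finset.sum_mul]
    exact Finset.sum_congr rfl fun i _ => by ring
  have b0 : ∫ p, u p ^ 2 ∂ν.prod ν + 2 * J ≤ ∫ p, (u p - al p.1 - al p.2) ^ 2 ∂ν.prod ν := by
    have e : ∀ p : Ω × Ω, (u p - al p.1 - al p.2) ^ 2 = u p ^ 2 + al p.1 ^ 2 + al p.2 ^ 2 +
        2 * (al p.1 * al p.2) - 2 * (u p * al p.1) - 2 * (u p * al p.2) := fun p => by ring
    have i1 := bu.sq.add ba.fst.sq
    have i2 := i1.add ba.snd.sq
    have q1 := (Bd.const 2).mul (ba.fst.mul ba.snd)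
    have q2 := (Bd.const 2).mul (bu.mul ba.fst)
    have q3 := (Bd.const 2).mul (bu.mul ba.snd)
    simp only [e]
    rw [integral_sub ((i2.add q1).sub q2).int q3.int, integral_sub (i2.add q1).int q2.int,
      integral_add i2.int q1.int, integral_add i1.int ba.snd.sq.int,
      integral_add bu.sq.int ba.fst.sq.int, integral_const_mul, integral_const_mul,
      integral_const_mul, z1, z2, j2, ← hJ]
    linarith
  have key : ∀ k, 0 < k → τ ≤ k → -(2 * k) * (∫ p, u p ^ 2 ∂ν.prod ν + 2 * J) ≤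
      ∫ p, c p * (u p - al p.1 - al p.2) ^ 2 ∂ν.prod ν := fun k k0 hk => by
    have q0 := bc.mul bu.sq
    have q1 := (Bd.const 2).mul (bc.mul (ba.fst.mul ba.snd))
    have q2 := (Bd.const (3 / (2 * k))).mul (bc.sq.mul ba.fst.sq)
    have q3 := (Bd.const (3 / (2 * k))).mul (bc.sq.mul ba.snd.sq)
    have q4 := (Bd.const (k / 2)).mul ba.fst.sq
    have q5 := (Bd.const (k / 2)).mul ba.snd.sq
    have q6 := (Bd.const (2 * k)).mul bu.sq
    have r := (((q2.add q3).add q4).add q5).add q6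
    refine le_trans ?_ (integral_mono ((q0.add q1).sub r).int (bc.mul bs).int fun p => pt k0)
    rw [integral_sub (q0.add q1).int r.int, integral_add q0.int q1.int,
      integral_add (((q2.add q3).add q4).add q5).int q6.int,
      integral_add ((q2.add q3).add q4).int q5.int, integral_add (q2.add q3).int q4.int,
      integral_add q2.int q3.int]
    simp only [integral_const_mul]
    rw [j2, ← hJ]
    have t1 : τ ^ 2 * J ≤ k ^ 2 * J := mul_le_mul_of_nonneg_right (by nlinarith) J0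
    have t2 : 0 ≤ 3 / (2 * k) := by positivity
    have t3 : 3 / (2 * k) * (k ^ 2 * J) = 3 / 2 * k * J := by field_simp
    linarith [mul_le_mul_of_nonneg_left (k1.trans t1) t2,
      mul_le_mul_of_nonneg_left (k2.trans t1) t2]
  generalize ∫ p, c p * (u p - al p.1 - al p.2) ^ 2 ∂ν.prod ν = T at key ⊢
  generalize ∫ p, (u p - al p.1 - al p.2) ^ 2 ∂ν.prod ν = S at b0 ⊢
  generalize ∫ p, u p ^ 2 ∂ν.prod ν = U at *
  rcases τ0.eq_or_lt with rfl | t0
  · rw [mul_zero, neg_zero, zero_mul]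
    refine le_of_forall_pos_le_add fun e he => ?_
    have := key (e / (2 * (U + 2 * J + 1))) (by positivity) (by positivity)
    have h2 : 2 * (e / (2 * (U + 2 * J + 1))) * (U + 2 * J + 1) = e := by field_simp
    have h3 : 0 < e / (2 * (U + 2 * J + 1)) := by positivity
    nlinarith
  · have := key τ t0 le_rfl
    nlinarith [mul_le_mul_of_nonneg_left b0 τ0]

end Pool.Agent.MP_66cee2_co.B67.H74
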