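import Pool.Agent.MP_66cee2_co.B67.Spec
import Pool.Agent.MP_66cee2_co.B.Dens

/-
No cover of half a large ball by four flat classes, cut kernel.
-/

namespace Pool.Agent.MP_66cee2_co.B67

open MeasureTheory Set Filter Metric Pool.Agent.MP_66cee2_co.X Pool.Agent.MP_66cee2_co.B

theorem NoCovx.alg (c V p q a N M μ κ y J : ℝ) (hV : 0 < V) (hp : 0 < p)
    (hq : 0 < q) (ha : 0 < a) (hN : 0 < N) (hμ : 0 ≤ μ) (hy : 0 < y) (hκ : κ ≤ M * V)
    (h2 : c * (V ^ 2 * (p * q ^ 6 / (64 * a ^ 2)) * y) ≤ N * (V * (q / 2) / (4 * a) * J))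
    (h3 : J ≤ 2 * (κ * (p / a * μ)) * y) :
    c * q ^ 5 / 16 ≤ N * (M * μ) := by
  have h4 : J ≤ 2 * (M * V * (p / a * μ)) * y := by
    refine h3.trans ?_
    gcongr
  have h5 : N * (V * (q / 2) / (4 * a) * J) ≤
      N * (V * (q / 2) / (4 * a) * (2 * (M * V * (p / a * μ)) * y)) := by
    gcongr
  have hT : 0 < V ^ 2 * p * q * y / a ^ 2 := by positivity
  have e1 : c * (V ^ 2 * (p * q ^ 6 / (64 * a ^ 2)) * y) =
      c * q ^ 5 / 16 * (V ^ 2 * p * q * y / a ^ 2) / 4 := by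
    field_simp
    ring
  have e2 : N * (V * (q / 2) / (4 * a) * (2 * (M * V * (p / a * μ)) * y)) =
      N * (M * μ) * (V ^ 2 * p * q * y / a ^ 2) / 4 := by
    field_simp
  refine le_of_mul_le_mul_right ?_ hT
  rw [e1] at h2
  rw [e2] at h5
  linarith

theorem sNoCov3 : SCt3 → SLens3 → SAp3 → SNum3 → B82.SFB2 → SConv3 → B82.SDens2 → SNoCov3 := by
  intro hCt hLens hAp hNum hFB hConv hDens
  have hro : 0 < ro := by norm_num [ro]
  obtain ⟨c, c0, hC⟩ := hConv (ro / 2) (cc - 2 * (ro / 2) ^ 2) (by positivity)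
    (by norm_num [ro, cc])
  have ht : Tendsto (fun l : ℕ => 2 * l + 3) atTop atTop :=
    tendsto_atTop_mono (fun l => by simp only [id]; omega) tendsto_id
  filter_upwards [hNum (c * ro ^ 5 / 16) (by positivity), ht.eventually hC] with l hl hC
  obtain ⟨R, hR0, hR⟩ := dens_rad (2 * l + 3) (ro / 2) (by positivity)
  refine ⟨R, hR0, fun n hn Y β hY hU => ?_⟩
  have hpos : ∀ s : ℝ, 0 < s → 0 < volume.real (ball (0 : E (2 * l + 3)) s) := fun s hs =>
    ENNReal.toReal_pos (measure_ball_pos _ _ hs).ne' measure_ball_lt_top.ne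
  have h2 : volume.real (⋃ c, Y c) ≤ ∑ c, volume.real (Y c) := measureReal_iUnion_fintype_le Y
  obtain ⟨i, hi⟩ : ∃ i, volume.real (ball (0 : E (2 * l + 3)) R) ≤ 8 * volume.real (Y i) := by
    by_contra h
    simp only [not_exists, not_le] at h
    rw [Fin.sum_univ_four] at h2
    linarith [h 0, h 1, h 2, h 3]
  obtain ⟨p1, p2, p3⟩ := hY i
  have hy : 0 < volume.real (Y i) := by linarith [hpos R hR0]
  have hD := hDens _ (Y i) R (ro / 2) (by positivity) p1.ms p3 (by linarith)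
  obtain ⟨g1, g2, κ, k0, k1, k2⟩ := hCt l
  obtain ⟨r, r1, r2⟩ := hAp l
  have hF := hFB l n (Y i) (β i) (fun w => Fq l (‖w‖ ^ 2)) κ (κ * ((ro ^ 4 / 4) ^ l * m3 l)) r
    p1 p2 g2 r1 (fun ξ => by
      rw [k2, ← mul_sub, abs_mul, abs_of_nonneg k0]
      exact mul_le_mul_of_nonneg_left (r2 _) k0)
  have hK := hC n (Y i) (β i)
    (fun w => volume.real (ball (0 : E (2 * l + 3)) 1) * (ro / 2) / 4 ^ (l + 1) *
      Fq l (‖w‖ ^ 2)) p1 (continuous_const.mul g1)
    (fun x y => by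
      rw [add_sub_cancel]
      exact hLens l x y) hD
  simp only [mul_assoc _ (Fq l _)] at hK
  rw [integral_const_mul, pow_succ' (4 : ℝ) l] at hK
  have hw : volume.real (ball (0 : E (2 * l + 3)) (ro / 2)) ^ 2 =
      volume.real (ball (0 : E (2 * l + 3)) 1) ^ 2 *
        ((ro ^ 4) ^ l * ro ^ 6 / (64 * ((4 : ℝ) ^ l) ^ 2)) := by
    have e4 : ((4 : ℝ) ^ l) = 2 ^ (2 * l) := by
      rw [pow_mul]
      norm_num
    rw [Measure.real, Measure.addHaar_ball_of_pos _ _ (by positivity : 0 < ro / 2),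
      ENNReal.toReal_mul, ENNReal.toReal_ofReal (by positivity), finrank_euclideanSpace_fin,
      Measure.real, e4, div_pow]
    field_simp
    ring
  rw [hw] at hK
  rw [div_pow] at hF
  have hμ : 0 ≤ m3 l := by
    unfold m3
    positivity
  have h9 := NoCovx.alg c _ _ ro _ (n + 2) ((l + 1) * (l + 2)) (m3 l) κ _ _
    (hpos 1 one_pos) (pow_pos (pow_pos hro 4) l) hro (by positivity) (by positivity) hμ hy k1 hK hF
  have h10 : ((n : ℝ) + 2) * ((l + 1) * (l + 2) * m3 l) ≤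
      ((46 / 25 : ℝ) ^ (2 * l + 4) + 2) * ((l + 1) * (l + 2) * m3 l) := by
    gcongr
  linarith

end Pool.Agent.MP_66cee2_co.B67
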