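import Pool.Agent.MP_66cee2_co.B67.Spec
import Pool.Agent.MP_66cee2_co.H75.Marg

/-
Polar coordinates in even dimension.
-/

namespace Pool.Agent.MP_66cee2_co.B67

open MeasureTheory Set Filter Metric Pool.Agent.MP_66cee2_co.X

theorem Radx.vol (l : ℕ) : volume.real (ball (0 : E (2 * l + 2)) 1) =
    Real.pi ^ (l + 1) / ((l + 1).factorial : ℝ) := by
  have : Nonempty (Fin (2 * l + 2)) := ⟨⟨0, by omega⟩⟩
  rw [Measure.real, InnerProductSpace.volume_ball_of_dim_even (k := l + 1)
    (by rw [finrank_euclideanSpace_fin]; ring)]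
  simp only [ENNReal.ofReal_one, one_pow, one_mul]
  exact ENNReal.toReal_ofReal (by positivity)

theorem Radx.shift (g : ℝ → ℝ) (v : ℝ) :
    ∫ s in Ioi (0 : ℝ), g (v + s) = ∫ σ in Ioi v, g σ := by
  rw [← integral_indicator measurableSet_Ioi, ← integral_indicator measurableSet_Ioi,
    ← integral_add_left_eq_self ((Ioi v).indicator g) v]
  refine integral_congr_ae (Eventually.of_forall fun s => ?_)
  by_cases h : 0 < s
  · simp only
    rw [indicator_of_mem (show s ∈ Ioi (0 : ℝ) from h),
      indicator_of_mem (show v + s ∈ Ioi v from lt_add_of_pos_right v h)]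
  · simp only
    rw [indicator_of_notMem (show s ∉ Ioi (0 : ℝ) from h),
      indicator_of_notMem (show v + s ∉ Ioi v from fun h' => h (pos_of_lt_add_right h'))]

theorem sRad : SRad := by
  intro l F _ v _ _
  rw [H75.polar l (fun s => F (v + s)), Radx.vol,
    ← Radx.shift (fun σ => (σ - v) ^ l * F σ) v]
  simp only [add_sub_cancel_left]

end Pool.Agent.MP_66cee2_co.B67
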