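import Pool.Agent.MP_66cee2_co.B67.Spec

/-
The signed bound for centred labels.
-/

namespace Pool.Agent.MP_66cee2_co.B67

open MeasureTheory Set Filter Pool.Agent.MP_66cee2_co.X
open scoped RealInnerProductSpace

namespace Sigx

/-- bounded measurable functions. -/
def Bd {α : Type} [MeasurableSpace α] (μ : Measure α) (f : α → ℝ) : Prop :=
  Measurable f ∧ ∃ C, ∀ᵐ x ∂μ, |f x| ≤ C

variable {α : Type} [MeasurableSpace α] {μ : Measure α} {f g : α → ℝ}

theorem Bd.const (c : ℝ) : Bd μ fun _ => c :=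
  ⟨measurable_const, |c|, .of_forall fun _ => le_rfl⟩

theorem Bd.add (hf : Bd μ f) (hg : Bd μ g) : Bd μ fun x => f x + g x := by
  obtain ⟨f1, C, f2⟩ := hf
  obtain ⟨g1, D, g2⟩ := hg
  refine ⟨f1.add g1, C + D, ?_⟩
  filter_upwards [f2, g2] with x h1 h2
  exact (abs_add_le _ _).trans (add_le_add h1 h2)

theorem Bd.sub (hf : Bd μ f) (hg : Bd μ g) : Bd μ fun x => f x - g x := by
  obtain ⟨f1, C, f2⟩ := hf
  obtain ⟨g1, D, g2⟩ := hg
  refine ⟨f1.sub g1, C + D, ?_⟩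
  filter_upwards [f2, g2] with x h1 h2
  exact (abs_sub _ _).trans (add_le_add h1 h2)

theorem Bd.mul (hf : Bd μ f) (hg : Bd μ g) : Bd μ fun x => f x * g x := by
  obtain ⟨f1, C, f2⟩ := hf
  obtain ⟨g1, D, g2⟩ := hg
  refine ⟨f1.mul g1, C * D, ?_⟩
  filter_upwards [f2, g2] with x h1 h2
  rw [abs_mul]
  exact mul_le_mul h1 h2 (abs_nonneg _) ((abs_nonneg _).trans h1)

theorem Bd.sq (hf : Bd μ f) : Bd μ fun x => f x ^ 2 := by
  simp only [pow_two]
  exact hf.mul hf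

theorem Bd.sum {ι : Type} (s : Finset ι) {F : ι → α → ℝ} (h : ∀ i, Bd μ (F i)) :
    Bd μ fun x => ∑ i ∈ s, F i x := by
  classical
  induction s using Finset.induction_on with
  | empty => simpa using Bd.const 0
  | insert a s ha ih =>
    simp only [Finset.sum_insert ha]
    exact (h a).add ih

theorem Bd.int [IsFiniteMeasure μ] (hf : Bd μ f) : Integrable f μ := by
  obtain ⟨f1, C, f2⟩ := hf
  exact Integrable.of_bound f1.aestronglyMeasurable C f2

theorem Bd.fst [IsFiniteMeasure μ] (hf : Bd μ f) : Bd (μ.prod μ) fun q => f q.1 := by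
  obtain ⟨f1, C, f2⟩ := hf
  exact ⟨f1.comp measurable_fst, C, Measure.quasiMeasurePreserving_fst.ae f2⟩

theorem Bd.snd [IsFiniteMeasure μ] (hf : Bd μ f) : Bd (μ.prod μ) fun q => f q.2 := by
  obtain ⟨f1, C, f2⟩ := hf
  exact ⟨f1.comp measurable_snd, C, Measure.quasiMeasurePreserving_snd.ae f2⟩

theorem ker {ι : Type} [Fintype ι] [IsFiniteMeasure μ] {F G : ι → α → ℝ} (hF : ∀ i, Bd μ (F i))
    (hG : ∀ i, Bd μ (G i)) :
    ∫ q, ∑ i, F i q.1 * G i q.2 ∂(μ.prod μ) = ∑ i, (∫ x, F i x ∂μ) * ∫ y, G i y ∂μ := by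
  rw [integral_finsetSum _ fun i _ => ((hF i).fst.mul (hG i).snd).int]
  exact Finset.sum_congr rfl fun i _ => integral_prod_mul _ _

theorem ker_nonneg {ι : Type} [Fintype ι] [IsFiniteMeasure μ] {F : ι → α → ℝ}
    (hF : ∀ i, Bd μ (F i)) : 0 ≤ ∫ q, ∑ i, F i q.1 * F i q.2 ∂(μ.prod μ) := by
  rw [ker hF hF]
  exact Finset.sum_nonneg fun i _ => mul_self_nonneg _

theorem point (k P U a b : ℝ) (hk : 0 < k) :
    (2 * (P * U ^ 2) + P * (a * b) + 4 * k * (a * b) - 16 * k * (U * a) +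
      3 / 2 * (a ^ 2 * (k - k⁻¹ * P ^ 2))) +
    (2 * (P * U ^ 2) + P * (b * a) + 4 * k * (b * a) - 16 * k * (U * b) +
      3 / 2 * (b ^ 2 * (k - k⁻¹ * P ^ 2))) ≤ (P + 4 * k) * (2 * U - a - b) ^ 2 := by
  have e : (P + 4 * k) * (2 * U - a - b) ^ 2 -
      ((2 * (P * U ^ 2) + P * (a * b) + 4 * k * (a * b) - 16 * k * (U * a) +
        3 / 2 * (a ^ 2 * (k - k⁻¹ * P ^ 2))) +
      (2 * (P * U ^ 2) + P * (b * a) + 4 * k * (b * a) - 16 * k * (U * b) +
        3 / 2 * (b ^ 2 * (k - k⁻¹ * P ^ 2)))) =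
      k⁻¹ * ((a ^ 2 + b ^ 2) / 2 * (P + k) ^ 2 + (2 * k * U - P * a) ^ 2 +
        (2 * k * U - P * b) ^ 2) + 2 * k * (a ^ 2 + b ^ 2) + 8 * k * U ^ 2 := by
    field_simp
    ring
  have : 0 ≤ k⁻¹ * ((a ^ 2 + b ^ 2) / 2 * (P + k) ^ 2 + (2 * k * U - P * a) ^ 2 +
      (2 * k * U - P * b) ^ 2) + 2 * k * (a ^ 2 + b ^ 2) + 8 * k * U ^ 2 := by positivity
  linarith

theorem core [IsFiniteMeasure μ] {P U : α × α → ℝ} {a : α → ℝ} {k : ℝ} (hk : 0 < k)
    (bP : Bd (μ.prod μ) P) (bU : Bd (μ.prod μ) U) (ba : Bd μ a)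
    (sP : ∀ q, P q.swap = P q) (sU : ∀ q, U q.swap = U q)
    (h1 : 0 ≤ ∫ q, P q * U q ^ 2 ∂(μ.prod μ))
    (h2 : 0 ≤ ∫ q, P q * (a q.1 * a q.2) ∂(μ.prod μ))
    (h4 : ∫ q, U q * a q.1 ∂(μ.prod μ) = 0)
    (h5 : ∀ᵐ x ∂μ, ∫ y, P (x, y) ^ 2 ∂μ ≤ k ^ 2 * μ.real univ) :
    0 ≤ ∫ q, (P q + 4 * k) * (2 * U q - a q.1 - a q.2) ^ 2 ∂(μ.prod μ) := by
  have h3 : 0 ≤ ∫ q, a q.1 * a q.2 ∂(μ.prod μ) := by
    rw [integral_prod_mul]
    exact mul_self_nonneg _
  have b1 := bP.mul bU.sq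
  have b3 := ba.fst.mul ba.snd
  have b2 := bP.mul b3
  have b4 := bU.mul ba.fst
  have b5 := ba.fst.sq.mul ((Bd.const k).sub ((Bd.const k⁻¹).mul bP.sq))
  have h6 : 0 ≤ ∫ q, a q.1 ^ 2 * (k - k⁻¹ * P q ^ 2) ∂(μ.prod μ) := by
    rw [integral_prod _ b5.int]
    refine integral_nonneg_of_ae ?_
    filter_upwards [h5, bP.sq.int.prod_right_ae] with x hx ix
    simp only [Pi.zero_apply]
    rw [integral_const_mul, integral_sub (integrable_const _) (ix.const_mul _),
      integral_const_mul, integral_const, smul_eq_mul]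
    refine mul_nonneg (sq_nonneg _) (sub_nonneg.2 ?_)
    rw [inv_mul_le_iff₀ hk]
    linarith
  obtain ⟨S, hS⟩ : ∃ S : α × α → ℝ, S = fun q => 2 * (P q * U q ^ 2) + P q * (a q.1 * a q.2) +
      4 * k * (a q.1 * a q.2) - 16 * k * (U q * a q.1) +
      3 / 2 * (a q.1 ^ 2 * (k - k⁻¹ * P q ^ 2)) := ⟨_, rfl⟩
  have c1 := (Bd.const 2).mul b1
  have c3 := (Bd.const (4 * k)).mul b3
  have c4 := (Bd.const (16 * k)).mul b4
  have c5 := (Bd.const (3 / 2)).mul b5
  have iS : Integrable S (μ.prod μ) := by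
    rw [hS]
    exact ((((c1.add b2).add c3).sub c4).add c5).int
  have S0 : 0 ≤ ∫ q, S q ∂(μ.prod μ) := by
    simp only [hS]
    rw [integral_add (((c1.add b2).add c3).sub c4).int c5.int,
      integral_sub ((c1.add b2).add c3).int c4.int, integral_add (c1.add b2).int c3.int,
      integral_add c1.int b2.int, integral_const_mul, integral_const_mul, integral_const_mul,
      integral_const_mul, h4]
    have := mul_nonneg hk.le h3
    linarith
  have iS' : Integrable (fun q : α × α => S q.swap) (μ.prod μ) := iS.swap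
  have sw : ∫ q, S q.swap ∂(μ.prod μ) = ∫ q, S q ∂(μ.prod μ) := integral_prod_swap S
  have iG := ((bP.add (Bd.const (4 * k))).mul
    ((((Bd.const 2).mul bU).sub ba.fst).sub ba.snd).sq).int
  have le := integral_mono (iS.add iS') iG fun q => by
    simp only [hS, Pi.add_apply, sP, sU, Prod.fst_swap, Prod.snd_swap]
    exact point k _ _ _ _ hk
  simp only [Pi.add_apply] at le
  rw [integral_add iS iS', sw] at le
  linarith

end Sigx

open Sigx in
theorem sSig0 : SSq → SSig0 := by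
  intro _ Ω _ d n ν _ X β A τ hX hβ hA hτ hP h0
  have bX : ∀ i, Bd ν fun x => X x i := fun i =>
    ⟨(by fun_prop : Continuous fun v : E d => v i).measurable.comp hX, A, by
      filter_upwards [hA] with x h
      exact (PiLp.norm_apply_le (X x) i).trans h.1⟩
  have bβ : ∀ i, Bd ν fun x => β x i := fun i =>
    ⟨(by fun_prop : Continuous fun v : E n => v i).measurable.comp hβ, A, by
      filter_upwards [hA] with x h
      exact (PiLp.norm_apply_le (β x) i).trans h.2⟩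
  obtain ⟨P, eP⟩ : ∃ P : Ω × Ω → ℝ, P = fun q => ∑ i, X q.1 i * X q.2 i := ⟨_, rfl⟩
  obtain ⟨U, eU⟩ : ∃ U : Ω × Ω → ℝ, U = fun q => ∑ i, β q.1 i * β q.2 i := ⟨_, rfl⟩
  obtain ⟨a, ea⟩ : ∃ a : Ω → ℝ, a = fun x => ∑ i, β x i * β x i - 1 / 2 := ⟨_, rfl⟩
  have iP : ∀ x y, ⟪X x, X y⟫ = P (x, y) := fun x y => by
    simp [eP, PiLp.inner_apply, mul_comm]
  have iU : ∀ x y, ⟪β x, β y⟫ = U (x, y) := fun x y => by
    simp [eU, PiLp.inner_apply, mul_comm]
  have eD : ∀ x y, 1 - ‖β x - β y‖ ^ 2 = 2 * U (x, y) - a x - a y := fun x y => by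
    rw [norm_sub_sq_real, ← real_inner_self_eq_norm_sq, ← real_inner_self_eq_norm_sq, iU, iU, iU]
    simp only [ea, eU]
    ring
  have bP : Bd (ν.prod ν) P := by
    rw [eP]
    exact Bd.sum _ fun i => (bX i).fst.mul (bX i).snd
  have bU : Bd (ν.prod ν) U := by
    rw [eU]
    exact Bd.sum _ fun i => (bβ i).fst.mul (bβ i).snd
  have ba : Bd ν a := by
    rw [ea]
    exact (Bd.sum _ fun i => (bβ i).mul (bβ i)).sub (Bd.const _)
  have sP : ∀ q, P q.swap = P q := fun q => by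
    simp only [eP, Prod.fst_swap, Prod.snd_swap, mul_comm]
  have sU : ∀ q, U q.swap = U q := fun q => by
    simp only [eU, Prod.fst_swap, Prod.snd_swap, mul_comm]
  have h1 : 0 ≤ ∫ q, P q * U q ^ 2 ∂(ν.prod ν) := by
    refine (ker_nonneg (ι := Fin n × Fin n × Fin d)
      (F := fun i x => X x i.2.2 * (β x i.1 * β x i.2.1))
      fun i => (bX _).mul ((bβ _).mul (bβ _))).trans_eq ?_
    refine integral_congr_ae (.of_forall fun q => ?_)
    simp only [eP, eU, Fintype.sum_prod_type, pow_two, Finset.sum_mul, Finset.mul_sum]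
    refine Finset.sum_congr rfl fun i _ => Finset.sum_congr rfl fun j _ =>
      Finset.sum_congr rfl fun l _ => ?_
    ring
  have h2 : 0 ≤ ∫ q, P q * (a q.1 * a q.2) ∂(ν.prod ν) := by
    refine (ker_nonneg (F := fun i x => X x i * a x) fun i => (bX i).mul ba).trans_eq ?_
    refine integral_congr_ae (.of_forall fun q => ?_)
    simp only [eP, Finset.sum_mul]
    exact Finset.sum_congr rfl fun i _ => by ring
  have h4 : ∫ q, U q * a q.1 ∂(ν.prod ν) = 0 := by
    have h := ker (F := fun i x => β x i * a x) (G := fun i x => β x i)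
      (fun i => (bβ i).mul ba) bβ
    simp only [h0, mul_zero, Finset.sum_const_zero] at h
    rw [← h]
    refine integral_congr_ae (.of_forall fun q => ?_)
    simp only [eU, Finset.sum_mul]
    exact Finset.sum_congr rfl fun i _ => by ring
  have bD := ((((Bd.const 2).mul bU).sub ba.fst).sub ba.snd).sq
  unfold SigB
  simp only [eD, iP] at hP ⊢
  rw [← integral_prod _ bD.int, ← integral_prod _ (bP.mul bD).int]
  have key : ∀ k, τ < k → 0 ≤ ∫ q, P q * (2 * U q - a q.1 - a q.2) ^ 2 ∂(ν.prod ν) +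
      4 * k * ∫ q, (2 * U q - a q.1 - a q.2) ^ 2 ∂(ν.prod ν) := fun k hk => by
    have h := core (hτ.trans_lt hk) bP bU ba sP sU h1 h2 h4 (by
      filter_upwards [hP] with x hx
      exact hx.trans (mul_le_mul_of_nonneg_right (pow_le_pow_left₀ hτ hk.le 2)
        measureReal_nonneg))
    simp only [add_mul] at h
    rwa [integral_add (bP.mul bD).int ((Bd.const (4 * k)).mul bD).int, integral_const_mul] at h
  have b0 : 0 ≤ ∫ q, (2 * U q - a q.1 - a q.2) ^ 2 ∂(ν.prod ν) :=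
    integral_nonneg fun q => sq_nonneg _
  generalize ∫ q, (2 * U q - a q.1 - a q.2) ^ 2 ∂(ν.prod ν) = b at key b0
  generalize ∫ q, P q * (2 * U q - a q.1 - a q.2) ^ 2 ∂(ν.prod ν) = c at key
  refine le_of_forall_pos_le_add fun ε hε => ?_
  have h := key (τ + ε / (4 * (b + 1))) (by
    have : 0 < ε / (4 * (b + 1)) := by positivity
    linarith)
  have e : 4 * (ε / (4 * (b + 1))) * (b + 1) = ε := by field_simp
  have : 0 ≤ ε / (4 * (b + 1)) := by positivity
  nlinarith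

end Pool.Agent.MP_66cee2_co.B67
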