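import Pool.Agent.MP_66cee2_co.B82.Spec

/-
Explicit base with a cut ball kernel: definitions and statements.
-/

namespace Pool.Agent.MP_66cee2_co.B67

open MeasureTheory Set Filter Metric Topology Polynomial Pool.Agent.MP_66cee2_co.X
  Pool.Agent.MP_66cee2_co.B
open scoped RealInnerProductSpace

/-- the diameter of the averaging ball. -/
noncomputable def ro : ℝ := 42 / 25

/-- the cut. -/
noncomputable def cc : ℝ := 709 / 500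

/-- the profile of the kernel. -/
noncomputable def Fq (l : ℕ) (σ : ℝ) : ℝ := max (cc - σ) 0 * (max (ro ^ 2 - σ) 0) ^ (l + 1)

/-- the profile of the marginal. -/
noncomputable def hq (l : ℕ) (v : ℝ) : ℝ := ∫ σ in Ioi v, (σ - v) ^ l * Fq l σ

/-- the error of the approximation. -/
noncomputable def m3 (l : ℕ) : ℝ := 1000 * (59 / 200) ^ l

/-! ### The kernel -/

/-- row Rad: polar coordinates. -/
def SRad : Prop :=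
  ∀ (l : ℕ) (F : ℝ → ℝ) (M v : ℝ), Continuous F → (∀ σ, M ≤ σ → F σ = 0) →
    ∫ y : E (2 * l + 2), F (v + ‖y‖ ^ 2) =
      (l + 1) * (Real.pi ^ (l + 1) / ((l + 1).factorial : ℝ)) * ∫ σ in Ioi v, (σ - v) ^ l * F σ

/-- row Ct3: cosine transform of the kernel. -/
def SCt3 : Prop :=
  ∀ l : ℕ, Continuous (fun w : E (2 * l + 3) => Fq l (‖w‖ ^ 2)) ∧
    Integrable (fun w : E (2 * l + 3) => Fq l (‖w‖ ^ 2)) ∧ ∃ κ : ℝ, 0 ≤ κ ∧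
    κ ≤ (l + 1) * (l + 2) * volume.real (ball (0 : E (2 * l + 3)) 1) ∧
    ∀ ξ, ct (fun w : E (2 * l + 3) => Fq l (‖w‖ ^ 2)) ξ =
      κ * ∫ u : ℝ, Real.cos (‖ξ‖ * u) * hq l (u ^ 2)

/-- row In: the marginal on the unit interval. -/
def SIn : Prop :=
  ∀ l : ℕ, ∃ (a b : ℝ) (p : ℝ[X]), |a| * 4 ^ l ≤ 2 ∧ |b| * 4 ^ l ≤ 1 ∧ p.natDegree ≤ l ∧
    ∀ v, v ≤ 1 → hq l v = a * (ro ^ 2 - v) ^ (2 * l + 2) + b * (ro ^ 2 - v) ^ (2 * l + 3) + p.eval v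

/-- row Tail: the marginal outside the unit interval. -/
def STail : Prop :=
  ∀ l : ℕ, Continuous (hq l) ∧ (∀ v, cc ≤ v → hq l v = 0) ∧
    ∀ v, 1 ≤ v → |hq l v| ≤ 3 * ((cc - 1) * (ro ^ 2 - cc)) ^ l

/-- row Ap3: polynomial approximation of the marginal. -/
def SAp3 : Prop :=
  ∀ l : ℕ, ∃ r : ℝ[X], r.natDegree ≤ l ∧ ∀ k : ℝ, |Phi (r.comp (X ^ 2)) k -
    ∫ u : ℝ, Real.cos (k * u) * hq l (u ^ 2)| ≤ (ro ^ 4 / 4) ^ l * m3 l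

/-- row Lens3: the lens bound. -/
def SLens3 : Prop :=
  ∀ (l : ℕ) (x y : E (2 * l + 3)), volume.real (ball x (ro / 2) ∩ ball y (ro / 2)) *
      max (cc - ‖y - x‖ ^ 2) 0 ≤
    volume.real (ball (0 : E (2 * l + 3)) 1) * (ro / 2) / 4 ^ (l + 1) * Fq l (‖y - x‖ ^ 2)

/-- row Num3. -/
def SNum3 : Prop :=
  ∀ c : ℝ, 0 < c → ∀ᶠ l : ℕ in atTop,
    ((46 / 25 : ℝ) ^ (2 * l + 4) + 2) * ((l + 1) * (l + 2) * m3 l) < c

/-! ### The local rank bound with a cut -/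

/-- row Iso: the ball is isotropic. -/
def SIso : Prop :=
  ∀ (d : ℕ) (z ξ : E d) (t : ℝ), 0 < t →
    d * ∫ y in ball z t, ⟪ξ, y - z⟫ ^ 2 ≤ t ^ 2 * ‖ξ‖ ^ 2 * volume.real (ball z t)

/-- row Sq: kernels of finite rank. -/
def SSq : Prop :=
  ∀ (Ω ι : Type) [MeasurableSpace Ω] [Fintype ι] (ν : Measure Ω) [IsFiniteMeasure ν]
    (f g : ι → Ω → ℝ) (A : ℝ), (∀ i, Measurable (f i)) → (∀ i, Measurable (g i)) →
    (∀ᵐ x ∂ν, ∀ i, |f i x| ≤ A ∧ |g i x| ≤ A) →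
    ∫ x, ∫ y, ∑ i, f i x * g i y ∂ν ∂ν = ∑ i, (∫ x, f i x ∂ν) * ∫ y, g i y ∂ν

/-- the signed bound for `X` and `β`. -/
def SigB {Ω : Type} [MeasurableSpace Ω] {d n : ℕ} (ν : Measure Ω) (X : Ω → E d) (β : Ω → E n)
    (τ : ℝ) : Prop :=
  -(4 * τ) * ∫ x, ∫ y, (1 - ‖β x - β y‖ ^ 2) ^ 2 ∂ν ∂ν ≤
    ∫ x, ∫ y, ⟪X x, X y⟫ * (1 - ‖β x - β y‖ ^ 2) ^ 2 ∂ν ∂ν

/-- row Sig0: the signed bound for centred labels. -/
def SSig0 : Prop :=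
  ∀ (Ω : Type) [MeasurableSpace Ω] (d n : ℕ) (ν : Measure Ω) [IsFiniteMeasure ν] (X : Ω → E d)
    (β : Ω → E n) (A τ : ℝ), Measurable X → Measurable β → (∀ᵐ x ∂ν, ‖X x‖ ≤ A ∧ ‖β x‖ ≤ A) →
    0 ≤ τ → (∀ᵐ x ∂ν, ∫ y, ⟪X x, X y⟫ ^ 2 ∂ν ≤ τ ^ 2 * ν.real univ) →
    (∀ a, ∫ x, β x a ∂ν = 0) → SigB ν X β τ

/-- row Sig: the signed bound. -/
def SSig3 : Prop :=
  ∀ (Ω : Type) [MeasurableSpace Ω] (d n : ℕ) (ν : Measure Ω) [IsFiniteMeasure ν] (X : Ω → E d)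
    (β : Ω → E n) (A τ : ℝ), Measurable X → Measurable β → (∀ᵐ x ∂ν, ‖X x‖ ≤ A ∧ ‖β x‖ ≤ A) →
    0 ≤ τ → (∀ᵐ x ∂ν, ∫ y, ⟪X x, X y⟫ ^ 2 ∂ν ≤ τ ^ 2 * ν.real univ) → SigB ν X β τ

/-- row Core: the rank bound on near pairs, bounded labels. -/
def SCore3 : Prop :=
  ∀ (d n : ℕ) (ν : Measure (E d)) [IsFiniteMeasure ν] (β : E d → E n) (z : E d) (t γ τ : ℝ),
    Measurable β → (∃ A, ∀ x, ‖β x‖ ≤ A) → (∀ᵐ x ∂ν, ‖x - z‖ ≤ t) → 0 ≤ τ → 16 * τ ≤ γ →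
    (∀ᵐ x ∂ν, ∫ y, ⟪x - z, y - z⟫ ^ 2 ∂ν ≤ τ ^ 2 * ν.real univ) →
    γ / 2 * ν.real univ ^ 2 ≤ (n + 2) *
      ∫ x, ∫ y, max (2 * t ^ 2 + γ - ‖y - x‖ ^ 2) 0 * (1 - ‖β x - β y‖ ^ 2) ^ 2 ∂ν ∂ν

/-- row Far: far pairs are rare. -/
def SFar : Prop :=
  ∀ (d n : ℕ) (ν : Measure (E d)) [IsFiniteMeasure ν] (β : E d → E n) (z : E d) (t γ τ : ℝ),
    Measurable β → (∀ᵐ x ∂ν, ‖x - z‖ ≤ t) → 0 < γ →
    (∀ᵐ x ∂ν, ∫ y, ⟪x - z, y - z⟫ ^ 2 ∂ν ≤ τ ^ 2 * ν.real univ) →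
    ∫ x, ∫ y, psi (‖β x - β y‖ ^ 2) ∂ν ∂ν ≤
      2 / γ * ∫ x, ∫ y, max (2 * t ^ 2 + γ - ‖y - x‖ ^ 2) 0 * psi (‖β x - β y‖ ^ 2) ∂ν ∂ν +
        16 * τ ^ 2 / γ ^ 2 * ν.real univ ^ 2

/-- row Sel: half of the labels are close to one point. -/
def SSel3 : Prop :=
  ∀ (d n : ℕ) (ν : Measure (E d)) [IsFiniteMeasure ν] (β : E d → E n), Measurable β →
    ∫ x, ∫ y, psi (‖β x - β y‖ ^ 2) ∂ν ∂ν ≤ ν.real univ ^ 2 / 200 →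
    ∃ p : E n, ν.real univ / 2 ≤ ν.real {x | ‖β x - p‖ ^ 2 < 3 / 2}

/-- row Loc3: the local rank bound on near pairs. -/
def SLoc3 : Prop :=
  ∀ t γ δ : ℝ, 0 < t → 0 < γ → 0 < δ → ∃ c : ℝ, 0 < c ∧ ∀ᶠ d : ℕ in atTop,
    ∀ (n : ℕ) (Y : Set (E d)) (β : E d → E n) (z : E d), MeasurableSet Y → Measurable β →
      Y ⊆ ball z t → δ * volume.real (ball z t) ≤ volume.real Y →
      c * volume.real Y ^ 2 ≤ (n + 2) *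
        ∫ x in Y, ∫ y in Y, max (2 * t ^ 2 + γ - ‖y - x‖ ^ 2) 0 * psi (‖β x - β y‖ ^ 2)

/-- row Mass: the mean of the volume in a ball. -/
def SMass : Prop :=
  ∀ (d : ℕ) (Y : Set (E d)) (t : ℝ), MeasurableSet Y → Bornology.IsBounded Y →
    Integrable (fun z : E d => volume.real (Y ∩ ball z t)) ∧
    Integrable (fun z : E d => volume.real (Y ∩ ball z t) ^ 2) ∧
    ∫ z : E d, volume.real (Y ∩ ball z t) = volume.real (ball (0 : E d) t) * volume.real Y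

/-- row Conv3: the local bound averaged over balls. -/
def SConv3 : Prop :=
  ∀ t γ : ℝ, 0 < t → 0 < γ → ∃ c : ℝ, 0 < c ∧ ∀ᶠ d : ℕ in atTop,
    ∀ (n : ℕ) (Y : Set (E d)) (β : E d → E n) (φ : E d → ℝ), Pre Y β → Continuous φ →
      (∀ x y : E d, volume.real (ball x t ∩ ball y t) * max (2 * t ^ 2 + γ - ‖y - x‖ ^ 2) 0 ≤
        φ (y - x)) →
      volume.real (ball (0 : E d) t) ^ 2 * volume.real Y ≤
        16 * ∫ z, volume.real (Y ∩ ball z t) ^ 2 →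
      c * (volume.real (ball (0 : E d) t) ^ 2 * volume.real Y) ≤
        (n + 2) * ∫ w, φ w * Hk Y β psi w

/-- row NoCov3: no cover of half a large ball by four flat classes. -/
def SNoCov3 : Prop :=
  ∀ᶠ l : ℕ in atTop, ∃ R : ℝ, 0 < R ∧ ∀ n : ℕ, (n : ℝ) ≤ (46 / 25) ^ (2 * l + 4) →
    ∀ (Y : Fin 4 → Set (E (2 * l + 3))) (β : Fin 4 → E (2 * l + 3) → E n),
      (∀ c, Pre (Y c) (β c) ∧ Van (Y c) (β c) (l + 2) ∧ Y c ⊆ ball 0 R) →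
      ¬ volume.real (ball (0 : E (2 * l + 3)) R) ≤ 2 * volume.real (⋃ c, Y c)

/-- the theorem. -/
def SBase3 : Prop :=
  ∃ d₀ : ℕ, ∀ d n : ℕ, d₀ ≤ d → (n : ℝ) ≤ (46 / 25) ^ d → XT.AllIso d n

theorem base3_of (hJ : D.SJ3) (hCov : B.SCov) (hT : D.STr) (hO : XT.RowODD) (h : SNoCov3) :
    SBase3 := by
  obtain ⟨l₀, h⟩ := eventually_atTop.1 h
  refine ⟨2 * l₀ + 3, fun d n hd hn => ?_⟩
  obtain ⟨l, hl, e⟩ : ∃ l, l₀ ≤ l ∧ (d = 2 * l + 3 ∨ d = 2 * l + 3 + 1) :=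
    ⟨(d - 3) / 2, by omega, by omega⟩
  have hn' : (n : ℝ) ≤ (46 / 25) ^ (2 * l + 4) :=
    hn.trans (pow_le_pow_right₀ (by norm_num) (by omega))
  obtain ⟨R, hR, hN⟩ := h l hl
  have h1 : XT.AllIso (2 * l + 3) n := by
    refine hT _ n (by omega) fun P hP => ?_
    obtain ⟨u, hu⟩ := hJ _ n (by omega) P hP
    rcases hCov _ n (l + 2) P u R (by omega) (by omega) hP hu hR with h | ⟨Y, β, hY, hcov⟩
    · exact h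
    · exact absurd hcov (hN n hn' Y β hY)
  rcases e with rfl | rfl
  · exact h1
  · exact hO _ n (by omega) h1

end Pool.Agent.MP_66cee2_co.B67
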