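import Pool.Agent.MP_66cee2_co.B67.Spec

/-
Kernels of finite rank.
-/

namespace Pool.Agent.MP_66cee2_co.B67

open MeasureTheory

theorem sSq : SSq := by
  intro Ω ι _ _ ν _ f g A hf hg h
  have i1 : ∀ i, Integrable (f i) ν := fun i =>
    Integrable.of_bound (hf i).aestronglyMeasurable A (h.mono fun x hx => (hx i).1)
  have i2 : ∀ i, Integrable (g i) ν := fun i =>
    Integrable.of_bound (hg i).aestronglyMeasurable A (h.mono fun x hx => (hx i).2)
  have e : ∀ x, ∫ y, ∑ i, f i x * g i y ∂ν = ∑ i, f i x * ∫ y, g i y ∂ν := fun x => by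
    rw [integral_finsetSum _ fun i _ => (i2 i).const_mul _]
    exact Finset.sum_congr rfl fun i _ => integral_const_mul _ _
  simp only [e]
  rw [integral_finsetSum _ fun i _ => (i1 i).mul_const _]
  exact Finset.sum_congr rfl fun i _ => integral_mul_const _ _

end Pool.Agent.MP_66cee2_co.B67
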